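import Mathlib

set_option autoImplicit false

/-!
# Numbers for programs which inspect few cells
-/

namespace Pool.Agent.Helper6.IT

theorem num_nat {A d n : ℕ} (hA : 2 ≤ A) (hd : 2 ≤ d) (hn : 2 ≤ n) :
    2 * (4 ^ (d + 1) * d ^ 3 * d ^ (n + 1)) ≤ (A * d) ^ (2 * n * d) := by
  have h1 : 2 * (4 ^ (d + 1) * d ^ 3 * d ^ (n + 1)) = 2 ^ (2 * d + 3) * d ^ (n + 4) := by
    have : (4 : ℕ) ^ (d + 1) = 2 ^ (2 * d + 2) := by
      rw [show (4 : ℕ) = 2 ^ 2 by norm_num, ← pow_mul]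
      ring_nf
    rw [this, pow_succ 2 (2 * d + 2), show d ^ (n + 4) = d ^ 3 * d ^ (n + 1) by ring]
    ring
  rw [h1]
  calc 2 ^ (2 * d + 3) * d ^ (n + 4) ≤ 2 ^ (2 * n * d) * d ^ (2 * n * d) := by
        refine Nat.mul_le_mul (Nat.pow_le_pow_right (by norm_num) ?_) (Nat.pow_le_pow_right (by omega) ?_)
        · nlinarith
        · nlinarith
    _ = (2 * d) ^ (2 * n * d) := by rw [mul_pow]
    _ ≤ (A * d) ^ (2 * n * d) := Nat.pow_le_pow_left (Nat.mul_le_mul_right d hA) _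

theorem num_itc {e : ℝ} (he : 0 < e) (he1 : e ≤ 1) : ∃ A : ℕ, 2 ≤ A ∧ ∀ (d n k M T : ℕ) (ν : ℝ), 2 ≤ d → 2 ≤ n →
    (A * d) ^ (A * n) ≤ k → k ^ d ≤ M → M ≤ d ^ (n + 1) * k ^ d → ν ≤ (M : ℝ) ^ (e * n / 4) →
    (T : ℝ) ≤ (M : ℝ) ^ (1 - e) →
    4 ^ (d + 1) * (d : ℝ) ^ 3 * Real.sqrt (T / (k : ℝ) ^ d) +
      Real.sqrt ν * (4 ^ (d + 1) * (d : ℝ) ^ 3 * Real.sqrt (T / (k : ℝ) ^ d)) ^ (n / 2) ≤
        (k : ℝ) ^ (-(e / 5)) := by
  refine ⟨⌈80 / e⌉₊ + 2, by omega, fun d n k M T ν hd hn hk hkM hM hN hT => ?_⟩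
  set A : ℕ := ⌈80 / e⌉₊ + 2 with hAdef
  have hA : 80 ≤ (A : ℝ) * e := by
    have h1 : 80 / e ≤ (A : ℝ) := (Nat.le_ceil _).trans (by rw [hAdef]; push_cast; linarith)
    rwa [div_le_iff₀ he] at h1
  have hA2 : 2 ≤ A := by omega
  have hk1 : 1 ≤ k := (Nat.one_le_pow _ _ (Nat.mul_pos (by omega) (by omega))).trans hk
  have hM1 : 1 ≤ M := (Nat.one_le_pow _ _ hk1).trans hkM
  have hkR : (1 : ℝ) ≤ k := by exact_mod_cast hk1
  have hMR : (1 : ℝ) ≤ M := by exact_mod_cast hM1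
  have hdR : (2 : ℝ) ≤ d := by exact_mod_cast hd
  have hk0 : (0 : ℝ) < k := by linarith
  have hM0 : (0 : ℝ) < M := by linarith
  have hkd : (0 : ℝ) < (k : ℝ) ^ d := by positivity
  -- the constant
  set c : ℝ := 4 ^ (d + 1) * (d : ℝ) ^ 3 * (d : ℝ) ^ (n + 1) with hc
  have hc0 : 0 < c := by positivity
  set y : ℝ := 4 ^ (d + 1) * (d : ℝ) ^ 3 * Real.sqrt (T / (k : ℝ) ^ d) with hy
  have hy0 : 0 ≤ y := by positivity
  -- the bound for the root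
  have h1 : (T : ℝ) / (k : ℝ) ^ d ≤ (d : ℝ) ^ (n + 1) * (M : ℝ) ^ (-e) := by
    rw [div_le_iff₀ hkd]
    have h2 : (M : ℝ) ≤ (d : ℝ) ^ (n + 1) * (k : ℝ) ^ d := by exact_mod_cast hM
    have h3 : (M : ℝ) ^ (1 - e) = M * (M : ℝ) ^ (-e) := by
      rw [sub_eq_add_neg, Real.rpow_add hM0, Real.rpow_one]
    rw [h3] at hT
    have h4 : (0 : ℝ) < (M : ℝ) ^ (-e) := Real.rpow_pos_of_pos hM0 _
    calc (T : ℝ) ≤ M * (M : ℝ) ^ (-e) := hT
      _ ≤ ((d : ℝ) ^ (n + 1) * (k : ℝ) ^ d) * (M : ℝ) ^ (-e) := by gcongr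
      _ = _ := by ring
  have h5 : Real.sqrt (T / (k : ℝ) ^ d) ≤ (d : ℝ) ^ (n + 1) * (M : ℝ) ^ (-(e / 2)) := by
    refine (Real.sqrt_le_sqrt h1).trans ?_
    rw [Real.sqrt_le_left (by positivity), mul_pow, ← Real.rpow_natCast ((M : ℝ) ^ (-(e / 2))) 2, ← Real.rpow_mul hM0.le]
    have h6 : -(e / 2) * ((2 : ℕ) : ℝ) = -e := by push_cast; ring
    rw [h6]
    have h7 : (d : ℝ) ^ (n + 1) ≤ ((d : ℝ) ^ (n + 1)) ^ 2 := by
      have : (1 : ℝ) ≤ (d : ℝ) ^ (n + 1) := one_le_pow₀ (by linarith)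
      nlinarith
    gcongr
  have hy1 : y ≤ c * (M : ℝ) ^ (-(e / 2)) := by
    rw [hy, hc, mul_assoc (4 ^ (d + 1) * (d : ℝ) ^ 3)]
    gcongr
  set z : ℝ := c * (M : ℝ) ^ (-(e / 8)) with hz
  have hz0 : 0 ≤ z := by positivity
  have hyz : y ≤ z := hy1.trans (by
    rw [hz]
    have : (M : ℝ) ^ (-(e / 2)) ≤ (M : ℝ) ^ (-(e / 8)) := Real.rpow_le_rpow_of_exponent_le hMR (by linarith)
    gcongr)
  -- the second summand
  have hh : 1 ≤ n / 2 := by omega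
  have hn3 : (n : ℝ) ≤ 3 * ((n / 2 : ℕ) : ℝ) := by
    have : n ≤ 3 * (n / 2) := by omega
    exact_mod_cast this
  have hS : Real.sqrt ν ≤ (M : ℝ) ^ (e * n / 8) := by
    rw [Real.sqrt_le_left (by positivity), ← Real.rpow_natCast, ← Real.rpow_mul hM0.le]
    have : e * n / 8 * ((2 : ℕ) : ℝ) = e * n / 4 := by push_cast; ring
    rw [this]
    exact hN
  have h8 : Real.sqrt ν * y ^ (n / 2) ≤ z ^ (n / 2) := by
    calc Real.sqrt ν * y ^ (n / 2) ≤ (M : ℝ) ^ (e * n / 8) * (c * (M : ℝ) ^ (-(e / 2))) ^ (n / 2) := by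
          gcongr
      _ = c ^ (n / 2) * (M : ℝ) ^ (e * n / 8 + -(e / 2) * ((n / 2 : ℕ) : ℝ)) := by
          rw [mul_pow, ← Real.rpow_natCast ((M : ℝ) ^ (-(e / 2))), ← Real.rpow_mul hM0.le, Real.rpow_add hM0]
          ring
      _ ≤ c ^ (n / 2) * (M : ℝ) ^ (-(e / 8) * ((n / 2 : ℕ) : ℝ)) := by
          have : (M : ℝ) ^ (e * n / 8 + -(e / 2) * ((n / 2 : ℕ) : ℝ)) ≤
              (M : ℝ) ^ (-(e / 8) * ((n / 2 : ℕ) : ℝ)) :=
            Real.rpow_le_rpow_of_exponent_le hMR (by nlinarith)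
          gcongr
      _ = z ^ (n / 2) := by
          rw [hz, mul_pow c, ← Real.rpow_natCast ((M : ℝ) ^ (-(e / 8))), ← Real.rpow_mul hM0.le]
  -- the size of z
  have hz1 : 2 * z ≤ (k : ℝ) ^ (-(e / 5)) := by
    have h9 : (M : ℝ) ^ (-(e / 8)) ≤ (k : ℝ) ^ (-(e / 8) * d) := by
      have h10 : (k : ℝ) ^ (-(e / 8) * d) = ((k : ℝ) ^ d) ^ (-(e / 8)) := by
        rw [← Real.rpow_natCast (k : ℝ) d, ← Real.rpow_mul hk0.le]
        congr 1
        ring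
      rw [h10]
      exact Real.rpow_le_rpow_of_nonpos hkd (by exact_mod_cast hkM) (by linarith)
    have h11 : 2 * c ≤ (k : ℝ) ^ (e * d / 40) := by
      have h12 : (2 * c : ℝ) ≤ ((A * d : ℕ) : ℝ) ^ (2 * n * d) := by
        rw [hc]
        exact_mod_cast num_nat hA2 hd hn
      refine h12.trans ?_
      have hAd : (1 : ℝ) ≤ ((A * d : ℕ) : ℝ) := by
        exact_mod_cast Nat.mul_pos (by omega) (by omega)
      calc ((A * d : ℕ) : ℝ) ^ (2 * n * d) = ((A * d : ℕ) : ℝ) ^ (((2 * n * d : ℕ) : ℝ)) := by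
            rw [Real.rpow_natCast]
        _ ≤ ((A * d : ℕ) : ℝ) ^ (((A * n : ℕ) : ℝ) * (e * d / 40)) := by
            refine Real.rpow_le_rpow_of_exponent_le hAd ?_
            push_cast
            have hnR : (0 : ℝ) ≤ n := Nat.cast_nonneg n
            have : (0 : ℝ) ≤ (n : ℝ) * d := by positivity
            nlinarith
        _ = (((A * d) ^ (A * n) : ℕ) : ℝ) ^ (e * d / 40) := by
            rw [Nat.cast_pow, ← Real.rpow_natCast ((A * d : ℕ) : ℝ) (A * n), ← Real.rpow_mul (by positivity)]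
        _ ≤ (k : ℝ) ^ (e * d / 40) := by
            refine Real.rpow_le_rpow (by positivity) ?_ (by positivity)
            exact_mod_cast hk
    calc 2 * z = (2 * c) * (M : ℝ) ^ (-(e / 8)) := by rw [hz]; ring
      _ ≤ (k : ℝ) ^ (e * d / 40) * (k : ℝ) ^ (-(e / 8) * d) := by gcongr
      _ = (k : ℝ) ^ (e * d / 40 + -(e / 8) * d) := by rw [Real.rpow_add hk0]
      _ ≤ (k : ℝ) ^ (-(e / 5)) := by
          refine Real.rpow_le_rpow_of_exponent_le hkR ?_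
          nlinarith
  have hz2 : z ≤ 1 := by
    have : (k : ℝ) ^ (-(e / 5)) ≤ 1 := Real.rpow_le_one_of_one_le_of_nonpos hkR (by linarith)
    linarith
  have hz3 : z ^ (n / 2) ≤ z := by
    calc z ^ (n / 2) ≤ z ^ 1 := pow_le_pow_of_le_one hz0 hz2 hh
      _ = z := pow_one z
  linarith

end Pool.Agent.Helper6.IT
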