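import Pool.Agent.Helper6.IT.CatMain
import Pool.Agent.Helper6.IT.Num

/-!
Tree evaluation on the complete `d`-ary tree with `n + 1` levels and values in `[k]`, by catalytic
branching programs: deterministic `k`-way branching programs with `N` states and `σ` start states; started in the
start state `i` the program has to end with the right output and with the index `i` (`σ = 1`: ordinary branching
programs). Programs which inspect at most `T` of the `k ^ d` entries of each table at even distance from the root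
(all other queries, and repeated queries, are free) are right on a part of at most
`p / k + y + √(N / σ) y ^ ⌊n / 2⌋` of the pairs of a start state and an instance, with
`y = 4 ^ (d + 1) d ^ 3 √(T / k ^ d)`, for all `d ≥ 2`, `n`, `k`, `N`, `σ`, `T`. Recursion inspects one entry of each
table, with a pushdown store it needs few states.
-/

namespace Pool.Agent.Results.MP_4e849b_lc.InspectedCells

open Pool.Agent.Helper5.TreeExp Pool.Agent.Helper18.IC Pool.Agent.Helper6.IT

theorem result :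
    (∀ (d n k N σ T p : ℕ) (φ : Fin k → Fin k) (B : CBP (Var d k n) k N σ) (y : ℝ), 2 ≤ d →
      (∀ b, Nat.card {x // φ x = b} ≤ p) → y = 4 ^ (d + 1) * d ^ 3 * √(T / k ^ d) →
      (Nat.card {P : Fin σ × Inst d k n // B.Outputs (ask d k n P.2) P.1 (φ (value d k n P.2)) ∧
        ∀ v : List (Fin d), Even v.length →
          Nat.card {u // nodeOf n u = v ∧ B.Asks (ask d k n P.2) P.1 u} ≤ T} : ℝ) ≤
        (p / k + y + √(N / σ) * y ^ (n / 2)) * Nat.card (Fin σ × Inst d k n)) ∧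
    (∀ ε : ℝ, 0 < ε → ε ≤ 1 → ∃ A : ℕ, ∀ (d n k M N σ p : ℕ) (φ : Fin k → Fin k)
      (B : CBP (Var d k n) k N σ), 2 ≤ d → 2 ≤ n → (A * d) ^ (A * n) ≤ k → M = Nat.card (Var d k n) →
      (∀ b, Nat.card {x // φ x = b} ≤ p) → (N : ℝ) ≤ σ * (M : ℝ) ^ (ε * n / 4) →
      (Nat.card {P : Fin σ × Inst d k n // B.Outputs (ask d k n P.2) P.1 (φ (value d k n P.2)) ∧
        (Nat.card {u // Even (nodeOf n u).length ∧ B.Asks (ask d k n P.2) P.1 u} : ℝ) ≤
          (M : ℝ) ^ (1 - ε)} : ℝ) ≤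
        (p / k + (k : ℝ) ^ (-(ε / 5))) * Nat.card (Fin σ × Inst d k n)) ∧
    ∀ d n k : ℕ, 2 ≤ d → 2 ≤ k →
      (∃ (N : ℕ) (B : BP (Var d k n) k N), N ≤ 2 * (d + 1) ^ n * k ^ ((d - 1) * n + 1) ∧
        ∀ J : Inst d k n, B.Outputs (ask d k n J) (value d k n J) ∧
          ∀ v : List (Fin d), Nat.card {u // nodeOf n u = v ∧ Asked B (ask d k n J) u} ≤ 1) ∧
      (∃ (S G : Type) (_ : Finite S) (_ : Finite G) (P : PBP (Var d k n) k S G),
        Nat.card S ≤ 3 * d ^ (n + 1) * k ^ d ∧ Nat.card G ≤ k ^ d ∧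
        ∀ J : Inst d k n, P.Outputs (ask d k n J) (value d k n J) ∧
          ∀ v : List (Fin d), Nat.card {u // nodeOf n u = v ∧ P.Asks (ask d k n J) u} ≤ 1) := by
  refine ⟨fun d n k N σ T p φ B y hd hφ hy => tables_bound_c hd φ hφ B hy, fun ε hε hε1 => ?_,
    fun d n k hd hk => ⟨upper_bound n hd (by omega), pushdown_bound n hd hk⟩⟩
  obtain ⟨A, hA, hnum⟩ := num_itc hε hε1
  refine ⟨A, fun d n k M N σ p φ B hd hn hk hM hφ hN => ?_⟩
  have hk1 : 1 ≤ k := (Nat.one_le_pow _ _ (by nlinarith)).trans hk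
  have hM2 : M ≤ d ^ (n + 1) * k ^ d := by
    rw [hM]
    exact card_var_le hd hk1 n
  have hM3 : k ^ d ≤ M := by
    obtain ⟨n', rfl⟩ : ∃ n', n = n' + 1 := ⟨n - 1, by omega⟩
    rw [hM, card_var_succ]
    exact Nat.le_add_right _ _
  have hν : (N / σ : ℝ) ≤ (M : ℝ) ^ (ε * n / 4) := by
    rcases Nat.eq_zero_or_pos σ with hσ | hσ
    · rw [hσ, Nat.cast_zero, div_zero]
      positivity
    · rw [div_le_iff₀ (by exact_mod_cast hσ), mul_comm]
      exact hN
  have h1 := total_le_c φ B ((M : ℝ) ^ (1 - ε))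
  have h2 := tables_bound_c (T := ⌊(M : ℝ) ^ (1 - ε)⌋₊) hd φ hφ B rfl
  have h3 := hnum d n k M ⌊(M : ℝ) ^ (1 - ε)⌋₊ (N / σ) hd hn hk hM3 hM2 hν
    (Nat.floor_le (by positivity))
  calc _ ≤ _ := by exact_mod_cast h1
    _ ≤ _ := h2
    _ ≤ _ := mul_le_mul_of_nonneg_right (by linarith) (Nat.cast_nonneg _)

end Pool.Agent.Results.MP_4e849b_lc.InspectedCells
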