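import Pool.Agent.Helper6.IT.Sum
import Pool.Agent.Helper6.IC.Final

/-!
# Programs for tree evaluation which inspect few cells: all parameters
-/

namespace Pool.Agent.Helper6.IT

open Pool.Agent.Helper5.TreeExp Pool.Agent.Helper18.IC Pool.Agent.Helper6.IC

variable {d k : ℕ}

/-- From the numbers of the observed entries of the tables at even distance. -/
theorem few2_of_tables {W : Type} {T : ℕ} {o : ℕ → W} : (n : ℕ) → (e : Var d k n → W) →
    (∀ v : List (Fin d), Even v.length →
      {u : Var d k n | nodeOf n u = v ∧ ∃ m, o m = e u}.ncard ≤ T) → Few2 o T n e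
  | 0, _, _ => trivial
  | 1, e, h => by
    refine le_trans ?_ (h [] (by simp))
    refine Set.ncard_le_ncard_of_injOn
      (fun a => (Sum.inl a : (Fin d → Fin k) ⊕ (Fin d × Var d k 0)))
      (fun a ha => ⟨by simp [nodeOf], ha⟩) ?_ (Set.toFinite _)
    intro a _ a' _ haa
    exact Sum.inl_injective haa
  | n + 2, e, h => by
    refine ⟨?_, fun i c => few2_of_tables n _ fun v hv => ?_⟩
    · refine le_trans ?_ (h [] (by simp))
      refine Set.ncard_le_ncard_of_injOn
        (fun a => (Sum.inl a : (Fin d → Fin k) ⊕ (Fin d × Var d k (n + 1))))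
        (fun a ha => ⟨by simp [nodeOf], ha⟩) ?_ (Set.toFinite _)
      intro a _ a' _ haa
      exact Sum.inl_injective haa
    · refine le_trans ?_ (h (i :: c :: v) (by
        rw [List.length_cons, List.length_cons]
        obtain ⟨r, hr⟩ := hv
        exact ⟨r + 1, by omega⟩))
      refine Set.ncard_le_ncard_of_injOn
        (fun u => (Sum.inr (i, Sum.inr (c, u)) : (Fin d → Fin k) ⊕ (Fin d × Var d k (n + 1))))
        ?_ ?_ (Set.toFinite _)
      · rintro u ⟨hu, hu'⟩
        refine ⟨?_, hu'⟩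
        have h1 : nodeOf (d := d) (k := k) (n + 2) (Sum.inr (i, Sum.inr (c, u))) =
            i :: c :: nodeOf n u := rfl
        rw [h1, hu]
      · intro a _ a' _ haa
        exact (Prod.mk.inj (Sum.inr_injective (Prod.mk.inj (Sum.inr_injective haa)).2)).2

/-- The good instances. -/
theorem good_le_tables {n N T : ℕ} (φ : Fin k → Fin k) (B : BP (Var d k n) k N) :
    Nat.card {J : Inst d k n // B.Outputs (ask d k n J) (φ (value d k n J)) ∧
      ∀ v : List (Fin d), Even v.length →
        Nat.card {u // nodeOf n u = v ∧ Asked B (ask d k n J) u} ≤ T} ≤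
    Nat.card {I : Var d k n → Fin k // GoodPhi2 T φ B I} := by
  rw [← card_inst_of n (fun I => GoodPhi2 T φ B I)]
  have hfin : Finite (Inst d k n) := Finite.of_equiv _ (instEquiv d k n).symm
  refine card_mono fun J hJ => ⟨?_, ?_⟩
  · rw [← value_eq, ← outputs_iff]
    exact hJ.1
  · refine few2_of_tables n Sum.inl fun v hv => ?_
    have h1 : {u : Var d k n | nodeOf n u = v ∧
        ∃ m, obs B (ask d k n J) B.start m = Sum.inl u}.ncard =
        Nat.card {u // nodeOf n u = v ∧ Asked B (ask d k n J) u} := by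
      rw [← Nat.card_coe_set_eq]
      refine Nat.card_congr (Equiv.subtypeEquivRight fun u => ?_)
      exact and_congr Iff.rfl (asked_iff B _ u).symm
    rw [h1]
    exact hJ.2 v hv

/-- The lower bound for all parameters. -/
theorem tables_bound {n N T p : ℕ} (hd : 2 ≤ d) (φ : Fin k → Fin k)
    (hφ : ∀ x, Nat.card {y // φ y = x} ≤ p) (B : BP (Var d k n) k N) {y : ℝ}
    (hy : y = 4 ^ (d + 1) * (d : ℝ) ^ 3 * Real.sqrt (T / (k : ℝ) ^ d)) :
    (Nat.card {J : Inst d k n // B.Outputs (ask d k n J) (φ (value d k n J)) ∧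
      ∀ v : List (Fin d), Even v.length →
        Nat.card {u // nodeOf n u = v ∧ Asked B (ask d k n J) u} ≤ T} : ℝ) ≤
      (p / (k : ℝ) + y + Real.sqrt N * y ^ (n / 2)) * Nat.card (Inst d k n) := by
  have hfin : Finite (Inst d k n) := Finite.of_equiv _ (instEquiv d k n).symm
  rcases Nat.eq_zero_or_pos k with hk | hk
  · subst hk
    have h1 : IsEmpty {J : Inst d 0 n // B.Outputs (ask d 0 n J) (φ (value d 0 n J)) ∧
      ∀ v : List (Fin d), Even v.length →
        Nat.card {u // nodeOf n u = v ∧ Asked B (ask d 0 n J) u} ≤ T} :=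
      ⟨fun J => (value d 0 n J.1).elim0⟩
    have h2 : IsEmpty (Inst d 0 n) := ⟨fun J => (value d 0 n J).elim0⟩
    rw [Nat.card_of_isEmpty, Nat.card_of_isEmpty]
    simp
  · have h1 := good_le_tables (T := T) φ B
    have h2 := bound_all (T := T) hd hk φ hφ B hy
    rw [card_inst]
    refine le_trans ?_ h2
    exact_mod_cast h1

/-- At most one right variable in each table. -/
theorem one_of_right {n : ℕ} (I : Var d k n → Fin k) (P : Var d k n → Prop)
    (h : ∀ u, P u → IsRight n I u) (v : List (Fin d)) : Nat.card {u // nodeOf n u = v ∧ P u} ≤ 1 := by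
  rw [Finite.card_le_one_iff_subsingleton]
  exact ⟨fun u u' => Subtype.ext (isRight_unique n I u.1 u'.1 (h _ u.2.2) (h _ u'.2.2)
    (u.2.1.trans u'.2.1.symm))⟩

/-- The program with few queries (recursion). -/
theorem upper_bound (n : ℕ) (hd : 2 ≤ d) (hk : 1 ≤ k) :
    ∃ (N : ℕ) (B : BP (Var d k n) k N), N ≤ 2 * (d + 1) ^ n * k ^ ((d - 1) * n + 1) ∧
      ∀ J : Inst d k n, B.Outputs (ask d k n J) (value d k n J) ∧
        ∀ v : List (Fin d), Nat.card {u // nodeOf n u = v ∧ Asked B (ask d k n J) u} ≤ 1 := by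
  obtain ⟨N, B, hN, hB⟩ := upper (by omega : 0 < d) (by omega : 0 < k) n
  refine ⟨N, B, hN, fun J => ?_⟩
  obtain ⟨h6, h7⟩ := hB (ask d k n J)
  rw [value_eq]
  refine ⟨h6, one_of_right (ask d k n J) _ fun u hu => ?_⟩
  obtain ⟨m, hm⟩ := (asked_iff B _ u).1 hu
  exact h7 m u hm

/-- The pushdown program. -/
theorem pushdown_bound (n : ℕ) (hd : 2 ≤ d) (hk : 2 ≤ k) :
    ∃ (S G : Type) (_ : Finite S) (_ : Finite G) (P : PBP (Var d k n) k S G),
      Nat.card S ≤ 3 * d ^ (n + 1) * k ^ d ∧ Nat.card G ≤ k ^ d ∧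
      ∀ J : Inst d k n, P.Outputs (ask d k n J) (value d k n J) ∧
        ∀ v : List (Fin d), Nat.card {u // nodeOf n u = v ∧ P.Asks (ask d k n J) u} ≤ 1 := by
  obtain ⟨S, G, hS, hG, P, hS', hG', hP⟩ := pushdown hd hk n
  refine ⟨S, G, hS, hG, P, hS', hG', fun J => ?_⟩
  obtain ⟨h6, h7⟩ := hP (ask d k n J)
  rw [value_eq]
  exact ⟨h6, one_of_right (ask d k n J) _ fun u hu => h7 u hu⟩

/-- From the total number to the numbers for the tables. -/
theorem total_le {n N : ℕ} (φ : Fin k → Fin k) (B : BP (Var d k n) k N) (x : ℝ) :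
    Nat.card {J : Inst d k n // B.Outputs (ask d k n J) (φ (value d k n J)) ∧
      (Nat.card {u // Even (nodeOf n u).length ∧ Asked B (ask d k n J) u} : ℝ) ≤ x} ≤
    Nat.card {J : Inst d k n // B.Outputs (ask d k n J) (φ (value d k n J)) ∧
      ∀ v : List (Fin d), Even v.length →
        Nat.card {u // nodeOf n u = v ∧ Asked B (ask d k n J) u} ≤ ⌊x⌋₊} := by
  have hfin : Finite (Inst d k n) := Finite.of_equiv _ (instEquiv d k n).symm
  refine card_mono fun J hJ => ⟨hJ.1, fun v hv => Nat.le_floor (le_trans ?_ hJ.2)⟩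
  have hfin2 : Finite (Var d k n) := finite_var n
  have h1 : Nat.card {u // nodeOf n u = v ∧ Asked B (ask d k n J) u} ≤
      Nat.card {u // Even (nodeOf n u).length ∧ Asked B (ask d k n J) u} :=
    card_mono fun u hu => ⟨by rw [hu.1]; exact hv, hu.2⟩
  exact_mod_cast h1

end Pool.Agent.Helper6.IT
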