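import Pool.Agent.Helper6.IT.CatDefs
import Pool.Agent.Helper6.IT.RanksC
import Pool.Agent.Helper6.IT.Main

/-!
# Programs for tree evaluation which inspect few cells: catalytic programs
-/

namespace Pool.Agent.Helper6.IT

open Pool.Agent.Helper5.TreeExp Pool.Agent.Helper18.IC Pool.Agent.Helper6.IC
open Pool.Agent.Helper18.IT (shape_bound)

variable {d k : ℕ}

/-- The program with one start state and without the indices. -/
def CBP.plain {V : Type} {N σ : ℕ} (B : CBP V k N σ) (i : Fin σ) : BP V k N where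
  start := B.start i
  act := fun q => (B.act q).map id Prod.fst

theorem CBP.plain_step {V : Type} {N σ : ℕ} (B : CBP V k N σ) (i : Fin σ) :
    (B.plain i).step = B.step := by
  funext I q
  unfold BP.step CBP.step CBP.plain
  cases h : B.act q with
  | inl t => simp [h]
  | inr b => simp [h]

theorem CBP.stay {V : Type} {N σ : ℕ} (B : CBP V k N σ) {I : V → Fin k} {q : Fin N}
    {x : Fin k × Fin σ} {m : ℕ} (h : B.act ((B.step I)^[m] q) = Sum.inr x) {j : ℕ} (hj : m ≤ j) :
    (B.step I)^[j] q = (B.step I)^[m] q := by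
  induction j, hj using Nat.le_induction with
  | base => rfl
  | succ j _ ih =>
    rw [Function.iterate_succ_apply', ih]
    unfold CBP.step at h ⊢
    rw [h]
    rfl

/-- The index of the final state reached from `q`. -/
noncomputable def CBP.idx {V : Type} {N σ : ℕ} (B : CBP V k N σ) (I : V → Fin k) (q : Fin N) :
    Option (Fin σ) := by
  classical
  exact if h : ∃ (i : Fin σ) (m : ℕ) (a : Fin k), B.act ((B.step I)^[m] q) = Sum.inr (a, i) then
    some h.choose else none

theorem CBP.idx_eq {V : Type} {N σ : ℕ} (B : CBP V k N σ) {I : V → Fin k} {q : Fin N} {i : Fin σ}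
    {m : ℕ} {a : Fin k} (h : B.act ((B.step I)^[m] q) = Sum.inr (a, i)) : B.idx I q = some i := by
  have h0 : ∃ (i : Fin σ) (m : ℕ) (a : Fin k), B.act ((B.step I)^[m] q) = Sum.inr (a, i) :=
    ⟨i, m, a, h⟩
  unfold CBP.idx
  rw [dif_pos h0]
  obtain ⟨m', a', h'⟩ := h0.choose_spec
  have h1 := B.stay h (Nat.le_add_right m m')
  have h2 := B.stay h' (Nat.le_add_left m' m)
  rw [h1] at h2
  rw [h2, h'] at h
  exact congrArg some (Prod.mk.inj (Sum.inr_injective h)).2

/-- The good pairs. -/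
def GoodC {n N σ : ℕ} (T : ℕ) (φ : Fin k → Fin k) (B : CBP (Var d k n) k N σ)
    (P : Fin σ × (Var d k n → Fin k)) : Prop :=
  B.Outputs P.2 P.1 (φ (valI n P.2)) ∧ Few2 (obs (B.plain P.1) P.2 (B.start P.1)) T n Sum.inl

theorem good_cases_l {n N T : ℕ} (z : Fin d) (sb : Fin d → Fin d) (hn : 2 ≤ n)
    (φ : Fin k → Fin k) (B : BP (Var d k n) k N)
    (I : Var d k n → Fin k) {l : ℕ} (hl' : obs B I B.start l = Sum.inr (φ (valI n I)))
    (hf : Few2 (obs B I B.start) T n Sum.inl) (hk : 1 ≤ k) :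
    Held (obs B I B.start) (Sum.inr (φ (valI n I))) (Sum.inl (rv n I)) ∨
    (∃ (x : NF d n) (a : Code T k (selF z sb x)), BCond (obs B I B.start) Sum.inl (selF z sb x) I ∧
      CodeOK (obs B I B.start) T k Sum.inl (selF z sb x) I a) ∨
    ∃ (x : NB d n) (r : ℕ), r ≤ l ∧ ∃ (a : Code T k (selB z sb x)),
      BCond (obs B I ((B.step I)^[r] B.start)) Sum.inl (selB z sb x) I ∧
      CodeOK (obs B I ((B.step I)^[r] B.start)) T k Sum.inl (selB z sb x) I a := by
  have hl := lines_triv n I
  set o := obs B I B.start with ho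
  have hne : ∀ u : Var d k n, (Sum.inl u : Var d k n ⊕ Fin k) ≠ Sum.inr (φ (valI n I)) :=
    fun u => by simp
  by_cases h1 : Held o (Sum.inr (φ (valI n I))) (Sum.inl (rv n I))
  · exact Or.inl h1
  · right
    by_cases h2 : Open2 o n Sum.inl I (Sum.inr (φ (valI n I)))
    · right
      -- a step at which the last open path is closed
      have h3 : ∃ j, j < l ∧ Open2 (fun i => o (i + j)) n Sum.inl I (Sum.inr (φ (valI n I))) ∧
          ¬ Open2 (fun i => o (i + (j + 1))) n Sum.inl I (Sum.inr (φ (valI n I))) := by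
        by_contra hc
        push Not at hc
        have h4 : ∀ j, j ≤ l →
            Open2 (fun i => o (i + j)) n Sum.inl I (Sum.inr (φ (valI n I))) := by
          intro j
          induction j with
          | zero => exact fun _ => h2
          | succ j ih => exact fun hj => hc j (by omega) (ih (by omega))
        have h6 : ¬ Held (fun i => o (i + l)) (Sum.inr (φ (valI n I))) (Sum.inl (rv n I)) :=
          open2_not_held (h4 l le_rfl)
        exact h6 (held_first (by simpa using hl') (by simp))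
      obtain ⟨j, hjm, hj1, hj2⟩ := h3
      have e1 : (fun i => (fun i => o (i + j)) (i + 1)) = fun i => o (i + (j + 1)) := by
        funext i
        change o (i + 1 + j) = o (i + (j + 1))
        rw [show i + 1 + j = i + (j + 1) by omega]
      obtain ⟨x, hx1, hx2⟩ := claimB z sb n hn Sum.inl Sum.inl_injective I
        (Sum.inr (φ (valI n I))) hne (o := fun i => o (i + j)) ⟨l - j - 1, by
          rw [show l - j - 1 + 1 + j = l by omega]
          exact hl'⟩ hj1 (by
          rw [e1]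
          exact hj2)
      rw [e1] at hx1 hx2
      have hf' : Few2 (fun i => o (i + (j + 1))) T n Sum.inl :=
        few2_mono (fun i => ⟨_, rfl⟩) _ _ hf
      obtain ⟨a, -, ha⟩ := code_exists (selB z sb x) Sum.inl Sum.inl_injective I hf' hl hx2 0 hk
      refine ⟨x, j + 1, hjm, a, ?_⟩
      rw [obs_shift]
      exact ⟨hx1, ha⟩
    · left
      obtain ⟨x, hx1, hx2⟩ := claimF z sb n Sum.inl Sum.inl_injective I (Sum.inr (φ (valI n I))) hne
        ⟨l, hl'⟩ h1 h2
      obtain ⟨a, -, ha⟩ := code_exists (selF z sb x) Sum.inl Sum.inl_injective I hf hl hx2 0 hk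
      exact ⟨x, a, hx1, ha⟩

theorem card_pairs {σ : ℕ} {Y : Type} (Q : Fin σ × Y → Prop) [Finite Y] :
    Nat.card {P : Fin σ × Y // Q P} = ∑ i, Nat.card {I // Q (i, I)} := by
  rw [← Nat.card_sigma]
  exact Nat.card_congr (Equiv.subtypeProdEquivSigmaSubtype (fun i I => Q (i, I)))

/-- A bound for each start state. -/
theorem card_pairs_le {σ : ℕ} {Y : Type} [Finite Y] (Q : Fin σ × Y → Prop) (c : ℝ)
    (h : ∀ i, (Nat.card {I // Q (i, I)} : ℝ) ≤ c) : (Nat.card {P : Fin σ × Y // Q P} : ℝ) ≤ σ * c := by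
  rw [card_pairs, Nat.cast_sum]
  refine (Finset.sum_le_sum fun i _ => h i).trans ?_
  simp

/-- The bound in terms of `x`. -/
theorem bound_xc {n N σ T mp : ℕ} (hd : 2 ≤ d) (hk : 1 ≤ k) (hn : 2 ≤ n)
    (φ : Fin k → Fin k) (hφ : ∀ x, Nat.card {y // φ y = x} ≤ mp) (B : CBP (Var d k n) k N σ) {x : ℝ}
    (hx : x = 4 ^ d * Real.sqrt (T / (k : ℝ) ^ d)) (hx1 : 8 * (d : ℝ) ^ 2 * x ≤ 1) :
    (Nat.card {P : Fin σ × (Var d k n → Fin k) // GoodC T φ B P} : ℝ) ≤
      (σ * (mp / (k : ℝ) + 2 * x) + Real.sqrt (N * σ) * (3 * (d : ℝ) ^ 3 * x) ^ (n / 2)) *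
      Nat.card (Var d k n → Fin k) := by
  classical
  set z : Fin d := ⟨0, by omega⟩ with hz
  set sb : Fin d → Fin d := fun c => if c.1 = 0 then ⟨1, by omega⟩ else z with hsbd
  have hsb : ∀ c, sb c ≠ c := by
    intro c h
    rw [hsbd] at h
    dsimp only at h
    split_ifs at h with h1
    · rw [← h] at h1
      simp at h1
    · rw [← h] at h1
      exact h1 rfl
  have hx0 : 0 ≤ x := by
    rw [hx]
    positivity
  have hk0 : (0 : ℝ) < k := by exact_mod_cast hk
  set X : ℝ := ((Nat.card (Var d k n → Fin k) : ℕ) : ℝ) with hX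
  have hX0 : 0 ≤ X := Nat.cast_nonneg _
  have hfinX : Finite (Var d k n → Fin k) := inferInstance
  rcases Nat.eq_zero_or_pos σ with hσ | hσ
  · subst hσ
    have : IsEmpty {P : Fin 0 × (Var d k n → Fin k) // GoodC T φ B P} := ⟨fun P => P.1.1.elim0⟩
    rw [Nat.card_of_isEmpty, Nat.cast_zero]
    positivity
  set i0 : Fin σ := ⟨0, hσ⟩ with hi0
  let P : Unit ⊕ (NF d n ⊕ NB d n) → (Fin σ × (Var d k n → Fin k)) → Prop := fun w I => match w with
    | Sum.inl _ => Held (obs (B.plain I.1) I.2 (B.start I.1)) (Sum.inr (φ (valI n I.2)))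
        (Sum.inl (rv n I.2))
    | Sum.inr (Sum.inl y) => ∃ q ∈ ({B.start I.1} : Finset (Fin N)), ∃ a : Code T k (selF z sb y),
        BCond (obs (B.plain I.1) I.2 q) Sum.inl (selF z sb y) I.2 ∧
        CodeOK (obs (B.plain I.1) I.2 q) T k Sum.inl (selF z sb y) I.2 a
    | Sum.inr (Sum.inr y) => ∃ q, B.idx I.2 q = some I.1 ∧ ∃ a : Code T k (selB z sb y),
        BCond (obs (B.plain i0) I.2 q) Sum.inl (selB z sb y) I.2 ∧
        CodeOK (obs (B.plain i0) I.2 q) T k Sum.inl (selB z sb y) I.2 a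
  have hcov := cover P (fun I => GoodC T φ B I) (fun I hI => by
    obtain ⟨⟨l, hl⟩, hf⟩ := hI
    have hl2 : obs (B.plain I.1) I.2 (B.plain I.1).start l = Sum.inr (φ (valI n I.2)) := by
      unfold obs see
      rw [B.plain_step]
      change ((B.act ((B.step I.2)^[l] (B.start I.1))).map id Prod.fst).elim _ _ = _
      rw [hl]
      rfl
    rcases good_cases_l z sb hn φ (B.plain I.1) I.2 hl2 hf hk with h | ⟨x, i, h⟩ | ⟨x, r, hr, i, h⟩
    · exact ⟨Sum.inl (), h⟩
    · exact ⟨Sum.inr (Sum.inl x), B.start I.1, Finset.mem_singleton_self _, i, h⟩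
    · refine ⟨Sum.inr (Sum.inr x), ((B.plain I.1).step I.2)^[r] (B.start I.1), ?_, i, h⟩
      rw [B.plain_step]
      refine B.idx_eq (m := l - r) (a := φ (valI n I.2)) ?_
      rw [← Function.iterate_add_apply, Nat.sub_add_cancel hr]
      exact hl)
  have hcov' : (Nat.card {I : Fin σ × (Var d k n → Fin k) // GoodC T φ B I} : ℝ) ≤
      ∑ w, (Nat.card {I // P w I} : ℝ) := by exact_mod_cast hcov
  rw [Fintype.sum_sum_type, Fintype.sum_sum_type] at hcov'
  refine hcov'.trans ?_
  have hroot : (Nat.card {I // P (Sum.inl ()) I} : ℝ) ≤ σ * (mp / k * X) := by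
    refine card_pairs_le _ _ fun i => ?_
    rw [div_mul_eq_mul_div, le_div_iff₀ hk0, hX]
    have h1 : Nat.card {I : Var d k n → Fin k //
        Held (obs (B.plain i) I (B.start i)) (Sum.inr (φ (valI n I))) (Sum.inl (rv n I))} * k ≤
        mp * Nat.card (Var d k n → Fin k) :=
      root_bound_phi (B.plain i) (B.start i) φ hφ
    exact_mod_cast h1
  have hF : ∀ y : NF d n, (Nat.card {I // P (Sum.inr (Sum.inl y)) I} : ℝ) ≤
      σ * (x ^ (selF z sb y).groups * X) := by
    intro y
    refine card_pairs_le _ _ fun i => ?_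
    have h1 := shape_bound (T := T) hk (B.plain i) {B.start i} (selF z sb y) (selF_ne_self z sb y)
      (selF_WF z sb y) (selF_size z sb hsb y)
    rw [Finset.card_singleton, Nat.cast_one, Real.sqrt_one, one_mul, ← hx] at h1
    exact h1
  have hB : ∀ y : NB d n, (Nat.card {I // P (Sum.inr (Sum.inr y)) I} : ℝ) ≤
      Real.sqrt (N * σ) * x ^ (selB z sb y).groups * X := by
    intro y
    have h1 := shape_bound_c (T := T) hk (B.plain i0) B.idx (selB z sb y) (selB_ne_self z sb y)
      (selB_WF z sb y) (selB_size z sb hsb y)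
    rw [← hx] at h1
    exact h1
  have s1 : ∑ w : Unit, (Nat.card {I // P (Sum.inl w) I} : ℝ) ≤ σ * (mp / k * X) := by
    simpa using hroot
  have s2 : ∑ y : NF d n, (Nat.card {I // P (Sum.inr (Sum.inl y)) I} : ℝ) ≤ σ * (2 * x * X) := by
    refine (Finset.sum_le_sum fun y _ => hF y).trans ?_
    rw [← Finset.mul_sum, ← Finset.sum_mul]
    exact mul_le_mul_of_nonneg_left (mul_le_mul_of_nonneg_right
      (wF_le (by omega) z sb hsb hx0 hx1 n).2 hX0) (Nat.cast_nonneg _)
  have s3 : ∑ y : NB d n, (Nat.card {I // P (Sum.inr (Sum.inr y)) I} : ℝ) ≤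
      Real.sqrt (N * σ) * (3 * (d : ℝ) ^ 3 * x) ^ (n / 2) * X := by
    refine (Finset.sum_le_sum fun y _ => hB y).trans ?_
    rw [← Finset.sum_mul, ← Finset.mul_sum]
    exact mul_le_mul_of_nonneg_right (mul_le_mul_of_nonneg_left
      (wB_le (by omega) z sb hsb hx0 hx1 n).2 (Real.sqrt_nonneg _)) hX0
  calc _ ≤ σ * (mp / k * X) + (σ * (2 * x * X) +
        Real.sqrt (N * σ) * (3 * (d : ℝ) ^ 3 * x) ^ (n / 2) * X) :=
        add_le_add s1 (add_le_add s2 s3)
    _ = _ := by ring

end Pool.Agent.Helper6.IT
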