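import Pool.Agent.Helper5.TreeExp.Defs

/-!
# Catalytic branching programs
-/

namespace Pool.Agent.Helper6.IT

/-- A catalytic branching program: a deterministic `k`-way branching program with `N` states and `σ` start states;
each state queries a variable (and moves according to the answer), or is final with an output and the index of a
start state. -/
structure CBP (V : Type) (k N σ : ℕ) where
  start : Fin σ → Fin N
  act : Fin N → (V × (Fin k → Fin N)) ⊕ (Fin k × Fin σ)

/-- One step of the program on the input `I` (final states do not move). -/
def CBP.step {V : Type} {k N σ : ℕ} (B : CBP V k N σ) (I : V → Fin k) (q : Fin N) : Fin N :=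
  (B.act q).elim (fun t => t.2 (I t.1)) (fun _ => q)

/-- The computation from the start state with index `i` reaches a final state with output `a` and index `i`. -/
def CBP.Outputs {V : Type} {k N σ : ℕ} (B : CBP V k N σ) (I : V → Fin k) (i : Fin σ) (a : Fin k) : Prop :=
  ∃ m, B.act ((B.step I)^[m] (B.start i)) = Sum.inr (a, i)

/-- In the computation from the start state with index `i` the variable `v` is queried. -/
def CBP.Asks {V : Type} {k N σ : ℕ} (B : CBP V k N σ) (I : V → Fin k) (i : Fin σ) (v : V) : Prop :=
  ∃ (m : ℕ) (next : Fin k → Fin N), B.act ((B.step I)^[m] (B.start i)) = Sum.inl (v, next)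

end Pool.Agent.Helper6.IT
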