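import Pool.Agent.Helper6.IT.Cat

/-!
# Programs for tree evaluation which inspect few cells: catalytic programs, all parameters
-/

namespace Pool.Agent.Helper6.IT

open Pool.Agent.Helper5.TreeExp Pool.Agent.Helper18.IC Pool.Agent.Helper6.IC

variable {d k : ℕ}

theorem start_inj {V : Type} {N σ : ℕ} (B : CBP V k N σ) {I : V → Fin k} {i j : Fin σ} {a b : Fin k}
    (hi : B.Outputs I i a) (hj : B.Outputs I j b) (h : B.start i = B.start j) : i = j := by
  obtain ⟨m, hm⟩ := hi
  obtain ⟨m', hm'⟩ := hj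
  have h1 := B.idx_eq hm
  have h2 := B.idx_eq hm'
  rw [h, h2] at h1
  exact (Option.some.inj h1).symm

/-- The bound for all parameters. -/
theorem bound_all_c {n N σ T mp : ℕ} (hd : 2 ≤ d) (hk : 1 ≤ k)
    (φ : Fin k → Fin k) (hφ : ∀ x, Nat.card {y // φ y = x} ≤ mp) (B : CBP (Var d k n) k N σ) {y : ℝ}
    (hy : y = 4 ^ (d + 1) * (d : ℝ) ^ 3 * Real.sqrt (T / (k : ℝ) ^ d)) :
    (Nat.card {P : Fin σ × (Var d k n → Fin k) // GoodC T φ B P} : ℝ) ≤
      (mp / (k : ℝ) + y + Real.sqrt (N / σ) * y ^ (n / 2)) * (σ * Nat.card (Var d k n → Fin k)) := by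
  classical
  rcases Nat.eq_zero_or_pos σ with hσ | hσ
  · subst hσ
    have : IsEmpty {P : Fin 0 × (Var d k n → Fin k) // GoodC T φ B P} := ⟨fun P => P.1.1.elim0⟩
    rw [Nat.card_of_isEmpty]
    simp
  have hs0 : (0 : ℝ) < σ := by exact_mod_cast hσ
  set x : ℝ := 4 ^ d * Real.sqrt (T / (k : ℝ) ^ d) with hx
  have hyx : y = 4 * (d : ℝ) ^ 3 * x := by
    rw [hy, hx]
    ring
  have hx0 : 0 ≤ x := by positivity
  have hd2 : (2 : ℝ) ≤ d := by exact_mod_cast hd
  have hy0 : 0 ≤ y := by
    rw [hyx]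
    positivity
  have hfinX : Finite (Var d k n → Fin k) := inferInstance
  set X : ℝ := ((Nat.card (Var d k n → Fin k) : ℕ) : ℝ) with hX
  have hX0 : 0 ≤ X := Nat.cast_nonneg _
  have hp0 : (0 : ℝ) ≤ mp / k := by positivity
  have hq0 : 0 ≤ Real.sqrt (N / σ : ℝ) := Real.sqrt_nonneg _
  have htriv : (Nat.card {P : Fin σ × (Var d k n → Fin k) // GoodC T φ B P} : ℝ) ≤ σ * X := by
    refine card_pairs_le _ _ fun i => ?_
    rw [hX]
    exact_mod_cast Nat.card_le_card_of_injective
      (fun I : {I : Var d k n → Fin k // GoodC T φ B (i, I)} => I.1) Subtype.val_injective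
  have hsq : Real.sqrt (N * σ : ℝ) = Real.sqrt (N / σ : ℝ) * σ := by
    rw [show (N * σ : ℝ) = (N / σ : ℝ) * (σ * σ) by field_simp, Real.sqrt_mul (by positivity),
      Real.sqrt_mul_self hs0.le]
  by_cases h1 : 1 ≤ y
  · refine htriv.trans ?_
    have h2 : 0 ≤ Real.sqrt (N / σ : ℝ) * y ^ (n / 2) := by positivity
    have h3 : 0 ≤ σ * X := by positivity
    nlinarith
  · push Not at h1
    rcases Nat.lt_or_ge n 2 with hn | hn
    · have h2 : n / 2 = 0 := by omega
      rw [h2, pow_zero, mul_one]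
      -- at most `N` right start states for each instance
      have h3 : (Nat.card {P : Fin σ × (Var d k n → Fin k) // GoodC T φ B P} : ℝ) ≤ N * X := by
        have h4 : Nat.card {P : Fin σ × (Var d k n → Fin k) // GoodC T φ B P} ≤
            Nat.card (Fin N × (Var d k n → Fin k)) := by
          refine Nat.card_le_card_of_injective (fun P => (B.start P.1.1, P.1.2)) ?_
          intro P P' h
          obtain ⟨h5, h6⟩ := Prod.mk.inj h
          have h8 := P'.2.1
          rw [← h6] at h8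
          exact Subtype.ext (Prod.ext (start_inj B P.2.1 h8 h5) h6)
        rw [Nat.card_prod, Nat.card_fin] at h4
        rw [hX]
        exact_mod_cast h4
      have h5 : (Nat.card {P : Fin σ × (Var d k n → Fin k) // GoodC T φ B P} : ℝ) ≤
          Real.sqrt (N / σ : ℝ) * (σ * X) := by
        have h6 : (0 : ℝ) ≤ (Nat.card {P : Fin σ × (Var d k n → Fin k) // GoodC T φ B P} : ℝ) :=
          Nat.cast_nonneg _
        calc (Nat.card {P : Fin σ × (Var d k n → Fin k) // GoodC T φ B P} : ℝ)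
            ≤ Real.sqrt ((N * X) * (σ * X)) := by
              apply Real.le_sqrt_of_sq_le
              rw [pow_two]
              exact mul_le_mul h3 htriv h6 (by positivity)
          _ = Real.sqrt (N / σ : ℝ) * (σ * X) := by
              rw [show ((N * X) * (σ * X) : ℝ) = (N * σ) * (X * X) by ring,
                Real.sqrt_mul (by positivity), Real.sqrt_mul_self hX0, hsq]
              ring
      refine h5.trans (mul_le_mul_of_nonneg_right ?_ (by positivity))
      linarith
    · have h3 : (8 * (d : ℝ) ^ 2 * x) ≤ y := by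
        rw [hyx]
        have h4 : (d : ℝ) ^ 3 = d ^ 2 * d := by ring
        have h5 : 0 ≤ (d : ℝ) ^ 2 * x := by positivity
        rw [h4]
        nlinarith
      have h4 := bound_xc (T := T) hd hk hn φ hφ B hx (by linarith)
      refine h4.trans ?_
      have h5 : 2 * x ≤ y := by
        have h6 : (2 : ℝ) ≤ 8 * (d : ℝ) ^ 2 := by nlinarith
        have h7 : 2 * x ≤ 8 * (d : ℝ) ^ 2 * x := mul_le_mul_of_nonneg_right h6 hx0
        linarith
      have h6 : (3 * (d : ℝ) ^ 3 * x) ^ (n / 2) ≤ y ^ (n / 2) := by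
        refine pow_le_pow_left₀ (by positivity) ?_ _
        rw [hyx]
        have : 0 ≤ (d : ℝ) ^ 3 * x := by positivity
        linarith
      have h7 := mul_le_mul_of_nonneg_left h6 hq0
      rw [hsq]
      calc (σ * (mp / (k : ℝ) + 2 * x) + Real.sqrt (N / σ : ℝ) * σ *
            (3 * (d : ℝ) ^ 3 * x) ^ (n / 2)) * X
          = (mp / (k : ℝ) + 2 * x + Real.sqrt (N / σ : ℝ) * (3 * (d : ℝ) ^ 3 * x) ^ (n / 2)) *
            (σ * X) := by ring
        _ ≤ _ := mul_le_mul_of_nonneg_right (by linarith) (by positivity)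

theorem asks_iff {V : Type} {N σ : ℕ} (B : CBP V k N σ) (I : V → Fin k) (i : Fin σ) (v : V) :
    B.Asks I i v ↔ ∃ m, obs (B.plain i) I (B.start i) m = Sum.inl v := by
  refine exists_congr fun m => ?_
  unfold obs see
  rw [B.plain_step]
  unfold CBP.plain
  dsimp only
  cases h : B.act ((B.step I)^[m] (B.start i)) with
  | inl t =>
    simp only [Sum.map_inl, id, Sum.elim_inl, Sum.inl.injEq]
    constructor
    · rintro ⟨next, h1⟩
      rw [h1]
    · intro h1
      exact ⟨t.2, by rw [← h1]⟩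
  | inr b => simp

/-- The good pairs. -/
theorem good_le_c {n N σ T : ℕ} (φ : Fin k → Fin k) (B : CBP (Var d k n) k N σ) :
    Nat.card {P : Fin σ × Inst d k n // B.Outputs (ask d k n P.2) P.1 (φ (value d k n P.2)) ∧
      ∀ v : List (Fin d), Even v.length →
        Nat.card {u // nodeOf n u = v ∧ B.Asks (ask d k n P.2) P.1 u} ≤ T} ≤
    Nat.card {P : Fin σ × (Var d k n → Fin k) // GoodC T φ B P} := by
  have hfin : Finite (Inst d k n) := Finite.of_equiv _ (instEquiv d k n).symm
  refine Nat.card_le_card_of_injective (fun P => ⟨(P.1.1, ask d k n P.1.2), ?_, ?_⟩) ?_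
  · rw [← value_eq]
    exact P.2.1
  · refine few2_of_tables n Sum.inl fun v hv => ?_
    have h1 : {u : Var d k n | nodeOf n u = v ∧
        ∃ m, obs (B.plain P.1.1) (ask d k n P.1.2) (B.start P.1.1) m = Sum.inl u}.ncard =
        Nat.card {u // nodeOf n u = v ∧ B.Asks (ask d k n P.1.2) P.1.1 u} := by
      rw [← Nat.card_coe_set_eq]
      refine Nat.card_congr (Equiv.subtypeEquivRight fun u => ?_)
      exact and_congr Iff.rfl (asks_iff B _ _ u).symm
    rw [h1]
    exact P.2.2 v hv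
  · rintro ⟨⟨i, J⟩, hP⟩ ⟨⟨i', J'⟩, hP'⟩ h
    have h1 := Subtype.mk.inj h
    obtain ⟨h2, h3⟩ := Prod.mk.inj h1
    have h4 := ask_injective n h3
    dsimp only at h2
    subst h2 h4
    rfl

/-- The lower bound for all parameters. -/
theorem tables_bound_c {n N σ T p : ℕ} (hd : 2 ≤ d) (φ : Fin k → Fin k)
    (hφ : ∀ x, Nat.card {y // φ y = x} ≤ p) (B : CBP (Var d k n) k N σ) {y : ℝ}
    (hy : y = 4 ^ (d + 1) * (d : ℝ) ^ 3 * Real.sqrt (T / (k : ℝ) ^ d)) :
    (Nat.card {P : Fin σ × Inst d k n // B.Outputs (ask d k n P.2) P.1 (φ (value d k n P.2)) ∧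
      ∀ v : List (Fin d), Even v.length →
        Nat.card {u // nodeOf n u = v ∧ B.Asks (ask d k n P.2) P.1 u} ≤ T} : ℝ) ≤
      (p / (k : ℝ) + y + Real.sqrt (N / σ) * y ^ (n / 2)) * Nat.card (Fin σ × Inst d k n) := by
  rcases Nat.eq_zero_or_pos k with hk | hk
  · subst hk
    have h1 : IsEmpty {P : Fin σ × Inst d 0 n // B.Outputs (ask d 0 n P.2) P.1 (φ (value d 0 n P.2)) ∧
      ∀ v : List (Fin d), Even v.length →
        Nat.card {u // nodeOf n u = v ∧ B.Asks (ask d 0 n P.2) P.1 u} ≤ T} :=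
      ⟨fun J => (value d 0 n J.1.2).elim0⟩
    have h2 : IsEmpty (Fin σ × Inst d 0 n) := ⟨fun J => (value d 0 n J.2).elim0⟩
    rw [Nat.card_of_isEmpty, Nat.card_of_isEmpty]
    simp
  · have h1 := good_le_c (T := T) φ B
    have h2 := bound_all_c (T := T) hd hk φ hφ B hy
    rw [Nat.card_prod, Nat.card_fin, card_inst, Nat.cast_mul]
    refine le_trans ?_ h2
    exact_mod_cast h1

/-- From the total number to the numbers for the tables. -/
theorem total_le_c {n N σ : ℕ} (φ : Fin k → Fin k) (B : CBP (Var d k n) k N σ) (x : ℝ) :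
    Nat.card {P : Fin σ × Inst d k n // B.Outputs (ask d k n P.2) P.1 (φ (value d k n P.2)) ∧
      (Nat.card {u // Even (nodeOf n u).length ∧ B.Asks (ask d k n P.2) P.1 u} : ℝ) ≤ x} ≤
    Nat.card {P : Fin σ × Inst d k n // B.Outputs (ask d k n P.2) P.1 (φ (value d k n P.2)) ∧
      ∀ v : List (Fin d), Even v.length →
        Nat.card {u // nodeOf n u = v ∧ B.Asks (ask d k n P.2) P.1 u} ≤ ⌊x⌋₊} := by
  have hfin : Finite (Inst d k n) := Finite.of_equiv _ (instEquiv d k n).symm
  refine card_mono fun J hJ => ⟨hJ.1, fun v hv => Nat.le_floor (le_trans ?_ hJ.2)⟩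
  have hfin2 : Finite (Var d k n) := finite_var n
  have h1 : Nat.card {u // nodeOf n u = v ∧ B.Asks (ask d k n J.2) J.1 u} ≤
      Nat.card {u // Even (nodeOf n u).length ∧ B.Asks (ask d k n J.2) J.1 u} :=
    card_mono fun u hu => ⟨by rw [hu.1]; exact hv, hu.2⟩
  exact_mod_cast h1

end Pool.Agent.Helper6.IT
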