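import Pool.Agent.Helper6.IT.Step

/-!
# Programs for tree evaluation which inspect few cells: branching block sets, the selection
-/

namespace Pool.Agent.Helper6.IT

open Pool.Agent.Helper5.TreeExp Pool.Agent.Helper18.IC Pool.Agent.Helper6.IC

variable {d k : ℕ} {W : Type}

/-- The shapes for a subtree without open paths. -/
def NF (d : ℕ) : ℕ → Type
  | 0 => Empty
  | 1 => Empty
  | n + 2 => Option (Fin d × NF d n × Option (Fin d × NF d n))

/-- The sets for a subtree without open paths. -/
def selF (z : Fin d) (sb : Fin d → Fin d) : {n : ℕ} → NF d n → BSel d n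
  | 0, x => x.elim
  | 1, x => x.elim
  | _ + 2, none => lastSel z
  | _ + 2, some y => stepSel z sb (y.1, z) (selF z sb y.2.1)
      (y.2.2.map (fun u => (u.1, selF z sb u.2)))

/-- The shapes for a path which is closed. -/
def NB (d : ℕ) : ℕ → Type
  | 0 => Empty
  | 1 => Empty
  | 2 => Unit
  | 3 => Unit
  | n + 4 => (Fin d × Fin d) × NB d (n + 2) × Option (Fin d × NF d (n + 2))

/-- The sets for a path which is closed. -/
def selB (z : Fin d) (sb : Fin d → Fin d) : {n : ℕ} → NB d n → BSel d n
  | 0, x => x.elim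
  | 1, x => x.elim
  | 2, _ => lastSel z
  | 3, _ => lastSel z
  | _ + 4, y => stepSel z sb y.1 (selB z sb y.2.1) (y.2.2.map (fun u => (u.1, selF z sb u.2)))

theorem selF_ne_self (z : Fin d) (sb : Fin d → Fin d) : {n : ℕ} → (x : NF d n) →
    selF z sb x ≠ .self
  | 0, x => x.elim
  | 1, x => x.elim
  | _ + 2, none => by simp [selF, lastSel]
  | _ + 2, some _ => stepSel_ne_self _ _ _ _ _

theorem selB_ne_self (z : Fin d) (sb : Fin d → Fin d) : {n : ℕ} → (x : NB d n) →
    selB z sb x ≠ .self
  | 0, x => x.elim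
  | 1, x => x.elim
  | 2, _ => by simp [selB, lastSel]
  | 3, _ => by simp [selB, lastSel]
  | _ + 4, _ => stepSel_ne_self _ _ _ _ _

theorem selF_WF (z : Fin d) (sb : Fin d → Fin d) : {n : ℕ} → (x : NF d n) → (selF z sb x).WF
  | 0, x => x.elim
  | 1, x => x.elim
  | _ + 2, none => base_WF z
  | n + 2, some (i, y, o) => by
    refine stepSel_WF z sb _ (selF_ne_self z sb y) (selF_WF z sb y) _ fun u hu => ?_
    rcases o with _ | v
    · simp at hu
    · have h : u = (v.1, selF z sb v.2) := by
        simpa using hu.symm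
      rw [h]
      exact ⟨selF_ne_self z sb v.2, selF_WF z sb v.2⟩

theorem selB_WF (z : Fin d) (sb : Fin d → Fin d) : {n : ℕ} → (x : NB d n) → (selB z sb x).WF
  | 0, x => x.elim
  | 1, x => x.elim
  | 2, _ => base_WF z
  | 3, _ => base_WF z
  | n + 4, (p, y, o) => by
    refine stepSel_WF z sb _ (selB_ne_self z sb y) (selB_WF z sb y) _ fun u hu => ?_
    rcases o with _ | v
    · simp at hu
    · have h : u = (v.1, selF z sb v.2) := by
        simpa using hu.symm
      rw [h]
      exact ⟨selF_ne_self z sb v.2, selF_WF z sb v.2⟩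

theorem selF_size (z : Fin d) (sb : Fin d → Fin d) (hsb : ∀ c, sb c ≠ c) : {n : ℕ} →
    (x : NF d n) → (selF z sb x).size = d * (selF z sb x).groups
  | 0, x => x.elim
  | 1, x => x.elim
  | _ + 2, none => by
    change (lastSel z).size = d * (lastSel z).groups
    rw [lastSel, base_size, base_groups, mul_one]
  | n + 2, some (i, y, o) => by
    have ih := selF_size z sb hsb y
    change (stepSel z sb _ _ _).size = d * (stepSel z sb _ _ _).groups
    rw [stepSel_size z sb hsb, stepSel_groups z sb hsb, mul_add, ← ih]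
    rcases o with _ | v
    · simp
    · have ih2 := selF_size z sb hsb v.2
      simpa using ih2

theorem selB_size (z : Fin d) (sb : Fin d → Fin d) (hsb : ∀ c, sb c ≠ c) : {n : ℕ} →
    (x : NB d n) → (selB z sb x).size = d * (selB z sb x).groups
  | 0, x => x.elim
  | 1, x => x.elim
  | 2, _ => by
    change (lastSel z).size = d * (lastSel z).groups
    rw [lastSel, base_size, base_groups, mul_one]
  | 3, _ => by
    change (lastSel z).size = d * (lastSel z).groups
    rw [lastSel, base_size, base_groups, mul_one]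
  | n + 4, (p, y, o) => by
    have ih := selB_size z sb hsb y
    change (stepSel z sb _ _ _).size = d * (stepSel z sb _ _ _).groups
    rw [stepSel_size z sb hsb, stepSel_groups z sb hsb, mul_add, ← ih]
    rcases o with _ | v
    · simp
    · have ih2 := selF_size z sb hsb v.2
      simpa using ih2

theorem last_claim {o : ℕ → W} (z : Fin d) {n : ℕ} (e : Var d k (n + 2) → W)
    (I : Var d k (n + 2) → Fin k) (p : W) (hrp : Held o (e (rv (n + 2) I)) p)
    (h : ∀ i, Held o (e (rv (n + 2) I)) (e2 e i z (rv n (sub2 I i z)))) :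
    BCond o e (lastSel z) I ∧ Bef o p e (lastSel z) I := by
  refine ⟨⟨fun i c hc => ?_, fun _ i c => ?_, fun i c => ?_⟩, ⟨fun _ => hrp, fun i c => ?_⟩⟩
  · by_cases h5 : c = z
    · rw [h5]
      exact h i
    · simp [h5] at hc
  · by_cases h5 : c = z <;> simp [h5, Bef]
  · by_cases h5 : c = z <;> simp [h5, BCond]
  · by_cases h5 : c = z <;> simp [h5, Bef]

theorem claimF {o : ℕ → W} (z : Fin d) (sb : Fin d → Fin d) : (n : ℕ) → (e : Var d k n → W) →
    Function.Injective e →
    (I : Var d k n → Fin k) → (p : W) → (∀ u, e u ≠ p) → (∃ m, o m = p) →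
    ¬ Held o p (e (rv n I)) → ¬ Open2 o n e I p →
    ∃ x : NF d n, BCond o e (selF z sb x) I ∧ Bef o p e (selF z sb x) I
  | 0, _, _, _, _, _, _, h1, h2 => absurd h1 h2
  | 1, _, _, _, _, _, _, h1, h2 => absurd h1 h2
  | n + 2, e, he, I, p, hep, hp, h1, h2 => by
    have hs := seen_of_not_held hp h1
    have hrp : Held o (e (rv (n + 2) I)) p := held_total hp h1 (hep _)
    have h3 : ∀ i c, ¬ Open2 o n (e2 e i c) (sub2 I i c) (e (rv (n + 2) I)) :=
      fun i c hc => h2 ⟨h1, i, c, hc⟩
    have hF : ∀ i c, ¬ Held o (e (rv (n + 2) I)) (e2 e i c (rv n (sub2 I i c))) →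
        ∃ x : NF d n, BCond o (e2 e i c) (selF z sb x) (sub2 I i c) ∧
          Bef o (e (rv (n + 2) I)) (e2 e i c) (selF z sb x) (sub2 I i c) := fun i c hc =>
      claimF z sb n (e2 e i c)
        (fun u v h => (Prod.mk.inj (Sum.inr.inj (Prod.mk.inj (Sum.inr.inj (he h))).2)).2)
        (sub2 I i c) _ (fun u h => by
          have := he h
          simp [rv] at this) hs hc (h3 i c)
    by_cases h4 : ∀ i, Held o (e (rv (n + 2) I)) (e2 e i z (rv n (sub2 I i z)))
    · exact ⟨none, last_claim z e I p hrp h4⟩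
    · push Not at h4
      obtain ⟨i, hc⟩ := h4
      obtain ⟨x, hx1, hx2⟩ := hF i z hc
      obtain ⟨y, hy⟩ := step_claim z sb e I p hrp (i, z) (selF_ne_self z sb x) hx1 hx2
        (selF z sb) (selF_ne_self z sb) hF
      exact ⟨some (i, x, y), hy⟩

theorem claimB {o : ℕ → W} (z : Fin d) (sb : Fin d → Fin d) (n : ℕ) :
    2 ≤ n → ∀ e : Var d k n → W, Function.Injective e →
    ∀ (I : Var d k n → Fin k) (p : W), (∀ u, e u ≠ p) → (∃ m, o (m + 1) = p) → Open2 o n e I p →
    ¬ Open2 (fun m => o (m + 1)) n e I p →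
    ∃ x : NB d n, BCond (fun m => o (m + 1)) e (selB z sb x) I ∧
      Bef (fun m => o (m + 1)) p e (selB z sb x) I := by
  induction n using Nat.strong_induction_on with
  | _ n ih =>
    intro hn e he I p hep hp h1 h2
    obtain ⟨n, rfl⟩ : ∃ n', n = n' + 2 := ⟨n - 2, by omega⟩
    obtain ⟨h3, i, c, hc⟩ := h1
    have hne : ∀ i' c' (u : Var d k n), e2 e i' c' u ≠ e (rv (n + 2) I) := fun i' c' u h => by
      have := he h
      simp [rv] at this
    have he2 : ∀ i' c', Function.Injective (e2 e i' c') := fun i' c' u v h =>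
      (Prod.mk.inj (Sum.inr.inj (Prod.mk.inj (Sum.inr.inj (he h))).2)).2
    have hch : ¬ Held o (e (rv (n + 2) I)) (e2 e i c (rv n (sub2 I i c))) := open2_not_held hc
    have h0 : o 0 ≠ e (rv (n + 2) I) := fun h => hch (held_first h (hne _ _ _).symm)
    have h4 : ¬ Held (fun m => o (m + 1)) p (e (rv (n + 2) I)) := fun h => h3 (held_prev h0 h)
    have hs : ∃ m, o (m + 1) = e (rv (n + 2) I) := seen_of_not_held (o := fun m => o (m + 1)) hp h4
    have hrp : Held (fun m => o (m + 1)) (e (rv (n + 2) I)) p :=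
      held_total (o := fun m => o (m + 1)) hp h4 (hep _)
    have h5 : ∀ i' c', ¬ Open2 (fun m => o (m + 1)) n (e2 e i' c') (sub2 I i' c')
        (e (rv (n + 2) I)) := fun i' c' h => h2 ⟨h4, i', c', h⟩
    rcases n with _ | _ | n
    · exact ⟨(), last_claim z e I p hrp fun i' => not_not.1 (h5 i' z)⟩
    · exact ⟨(), last_claim z e I p hrp fun i' => not_not.1 (h5 i' z)⟩
    · obtain ⟨x, hx1, hx2⟩ := ih (n + 2) (by omega) (by omega) (e2 e i c) (he2 i c) (sub2 I i c) _
        (hne i c) hs hc (h5 i c)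
      have hF : ∀ i' c', ¬ Held (fun m => o (m + 1)) (e (rv (n + 4) I))
          (e2 e i' c' (rv (n + 2) (sub2 I i' c'))) →
          ∃ x : NF d (n + 2), BCond (fun m => o (m + 1)) (e2 e i' c') (selF z sb x)
            (sub2 I i' c') ∧
            Bef (fun m => o (m + 1)) (e (rv (n + 4) I)) (e2 e i' c') (selF z sb x)
              (sub2 I i' c') := fun i' c' h =>
        claimF (o := fun m => o (m + 1)) z sb (n + 2) (e2 e i' c') (he2 _ _) (sub2 I i' c') _
          (hne _ _) hs h (h5 _ _)
      obtain ⟨y, hy⟩ := step_claim (o := fun m => o (m + 1)) z sb e I p hrp (i, c)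
        (selB_ne_self z sb x) hx1 hx2 (selF z sb) (selF_ne_self z sb) hF
      exact ⟨((i, c), x, y), hy⟩

end Pool.Agent.Helper6.IT
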