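import Pool.Agent.Helper6.IC.BCount

/-!
# Programs for tree evaluation which inspect few cells: branching block sets

One step of the selection: below a node of which the grandchild `p` is not held, either one grandchild for each
child is held (then the node gets an index), or a second grandchild is not held.
-/

namespace Pool.Agent.Helper6.IT

open Pool.Agent.Helper5.TreeExp Pool.Agent.Helper18.IC Pool.Agent.Helper6.IC

variable {d k : ℕ} {W : Type}

/-- One step of the selection. -/
def stepSel {n : ℕ} (z : Fin d) (sb : Fin d → Fin d) (p : Fin d × Fin d) (s : BSel d n) :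
    Option (Fin d × BSel d n) → BSel d (n + 2)
  | none => .node true (fun i c => if (i, c) = p then s else
      if c = ch z sb p i then .self else .empty)
  | some y => .node false (fun i c => if (i, c) = p then s else
      if (i, c) = (y.1, ch z sb p y.1) then y.2 else .empty)

/-- The set of the last step. -/
def lastSel {n : ℕ} (z : Fin d) : BSel d (n + 2) :=
  .node true (fun _ c => if c = z then .self else .empty)

theorem stepSel_ne_self {n : ℕ} (z : Fin d) (sb : Fin d → Fin d) (p : Fin d × Fin d) (s : BSel d n)
    (y : Option (Fin d × BSel d n)) : stepSel z sb p s y ≠ .self := by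
  rcases y with _ | y <;> simp [stepSel]

theorem stepSel_WF {n : ℕ} (z : Fin d) (sb : Fin d → Fin d) (p : Fin d × Fin d) {s : BSel d n}
    (hs : s ≠ .self) (hw : s.WF) : (y : Option (Fin d × BSel d n)) →
    (∀ u ∈ y, u.2 ≠ .self ∧ u.2.WF) → (stepSel z sb p s y).WF
  | none, _ => by
    have h0 : ∀ i c, (if (i, c) = p then s else
        if c = ch z sb p i then BSel.self else .empty) = .self → c = ch z sb p i := by
      intro i c h
      by_contra hc
      rw [if_neg hc] at h
      split_ifs at h
      · exact hs h
    refine ⟨fun h => by simp at h, fun i c c' h h' => (h0 i c h).trans (h0 i c' h').symm,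
      fun i c => ?_⟩
    dsimp only
    split_ifs
    · exact hw
    · trivial
    · trivial
  | some y, hy => by
    obtain ⟨hy1, hy2⟩ := hy y rfl
    have h0 : ∀ i c, (if (i, c) = p then s else
        if (i, c) = (y.1, ch z sb p y.1) then y.2 else BSel.empty) ≠ .self := fun i c => by
      split_ifs
      · exact hs
      · exact hy1
      · simp
    refine ⟨fun _ i c => h0 i c, fun i c c' h _ => absurd h (h0 i c), fun i c => ?_⟩
    dsimp only
    split_ifs
    · exact hw
    · exact hy2
    · trivial

theorem sum_at (p : Fin d × Fin d) (a : ℕ) :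
    ∑ i : Fin d, ∑ c : Fin d, (if (i, c) = p then a else 0) = a := by
  have h : ∑ i : Fin d, ∑ c : Fin d, (if (i, c) = p then a else 0) =
      ∑ q : Fin d × Fin d, (if q = p then a else 0) :=
    (Fintype.sum_prod_type (fun q : Fin d × Fin d => if q = p then a else 0)).symm
  rw [h, Finset.sum_ite_eq' Finset.univ p, if_pos (Finset.mem_univ p)]

theorem sum_line (f : Fin d → Fin d) :
    ∑ i : Fin d, ∑ c : Fin d, (if c = f i then 1 else 0) = d := by
  have h : ∀ i : Fin d, ∑ c : Fin d, (if c = f i then 1 else 0) = 1 := fun i => by
    rw [Finset.sum_ite_eq' Finset.univ (f i), if_pos (Finset.mem_univ _)]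
  simp [h]

/-- Size and number of indices of a step. -/
theorem stepSel_size {n : ℕ} (z : Fin d) (sb : Fin d → Fin d) (hsb : ∀ c, sb c ≠ c)
    (p : Fin d × Fin d) (s : BSel d n) : (y : Option (Fin d × BSel d n)) →
    (stepSel z sb p s y).size = s.size + y.elim d (fun u => u.2.size)
  | none => by
    have h : ∀ i c : Fin d, (if (i, c) = p then s else
        if c = ch z sb p i then BSel.self else .empty).size =
        (if (i, c) = p then s.size else 0) + (if c = ch z sb p i then 1 else 0) := by
      intro i c
      by_cases h1 : (i, c) = p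
      · have h2 : c ≠ ch z sb p i := fun h => ch_ne (z := z) hsb p i (by rw [← h]; exact h1)
        rw [if_pos h1, if_pos h1, if_neg h2]
        rfl
      · rw [if_neg h1, if_neg h1]
        split_ifs <;> simp [BSel.size]
    simp only [stepSel, BSel.size, h, Finset.sum_add_distrib, Option.elim]
    rw [sum_at, sum_line]
  | some y => by
    have h : ∀ i c : Fin d, (if (i, c) = p then s else
        if (i, c) = (y.1, ch z sb p y.1) then y.2 else BSel.empty).size =
        (if (i, c) = p then s.size else 0) +
        (if (i, c) = (y.1, ch z sb p y.1) then y.2.size else 0) := by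
      intro i c
      by_cases h1 : (i, c) = p
      · have h2 : (i, c) ≠ (y.1, ch z sb p y.1) := fun h =>
          ch_ne (z := z) hsb p y.1 (by rw [← h]; exact h1)
        rw [if_pos h1, if_pos h1, if_neg h2]
        rfl
      · rw [if_neg h1, if_neg h1]
        split_ifs <;> simp [BSel.size]
    simp only [stepSel, BSel.size, h, Finset.sum_add_distrib, Option.elim]
    rw [sum_at, sum_at]

theorem stepSel_groups {n : ℕ} (z : Fin d) (sb : Fin d → Fin d) (hsb : ∀ c, sb c ≠ c)
    (p : Fin d × Fin d) (s : BSel d n) : (y : Option (Fin d × BSel d n)) →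
    (stepSel z sb p s y).groups = s.groups + y.elim 1 (fun u => u.2.groups)
  | none => by
    have h : ∀ i c : Fin d, (if (i, c) = p then s else
        if c = ch z sb p i then BSel.self else .empty).groups =
        (if (i, c) = p then s.groups else 0) := by
      intro i c
      by_cases h1 : (i, c) = p
      · rw [if_pos h1, if_pos h1]
      · rw [if_neg h1, if_neg h1]
        split_ifs <;> simp [BSel.groups]
    simp only [stepSel, BSel.groups, h, Option.elim]
    rw [sum_at]
    simp
    omega
  | some y => by
    have h : ∀ i c : Fin d, (if (i, c) = p then s else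
        if (i, c) = (y.1, ch z sb p y.1) then y.2 else BSel.empty).groups =
        (if (i, c) = p then s.groups else 0) +
        (if (i, c) = (y.1, ch z sb p y.1) then y.2.groups else 0) := by
      intro i c
      by_cases h1 : (i, c) = p
      · have h2 : (i, c) ≠ (y.1, ch z sb p y.1) := fun h =>
          ch_ne (z := z) hsb p y.1 (by rw [← h]; exact h1)
        rw [if_pos h1, if_pos h1, if_neg h2]
        rfl
      · rw [if_neg h1, if_neg h1]
        split_ifs <;> simp [BSel.groups]
    simp only [stepSel, BSel.groups, h, Finset.sum_add_distrib, Option.elim]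
    rw [sum_at, sum_at]
    simp

/-- The conditions for one step. -/
theorem step_claim {o : ℕ → W} (z : Fin d) (sb : Fin d → Fin d) {n : ℕ} (e : Var d k (n + 2) → W)
    (I : Var d k (n + 2) → Fin k) (p : W) (hrp : Held o (e (rv (n + 2) I)) p) (q : Fin d × Fin d)
    {s : BSel d n} (hs : s ≠ .self) (h1 : BCond o (e2 e q.1 q.2) s (sub2 I q.1 q.2))
    (h2 : Bef o (e (rv (n + 2) I)) (e2 e q.1 q.2) s (sub2 I q.1 q.2))
    {X : Type} (sel : X → BSel d n) (hsel : ∀ x, sel x ≠ .self)
    (hF : ∀ i c, ¬ Held o (e (rv (n + 2) I)) (e2 e i c (rv n (sub2 I i c))) →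
      ∃ x, BCond o (e2 e i c) (sel x) (sub2 I i c) ∧
        Bef o (e (rv (n + 2) I)) (e2 e i c) (sel x) (sub2 I i c)) :
    ∃ y : Option (Fin d × X),
      BCond o e (stepSel z sb q s (y.map (fun u => (u.1, sel u.2)))) I ∧
      Bef o p e (stepSel z sb q s (y.map (fun u => (u.1, sel u.2)))) I := by
  by_cases h6 : ∀ i', Held o (e (rv (n + 2) I))
      (e2 e i' (ch z sb q i') (rv n (sub2 I i' (ch z sb q i'))))
  · refine ⟨none, ⟨fun i' c' hc' => ?_, fun _ i' c' => ?_, fun i' c' => ?_⟩,
      ⟨fun _ => hrp, fun i' c' => ?_⟩⟩
    · dsimp only at hc'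
      by_cases h7 : (i', c') = q
      · rw [if_pos h7] at hc'
        exact absurd hc' hs
      · rw [if_neg h7] at hc'
        by_cases h8 : c' = ch z sb q i'
        · rw [h8]
          exact h6 i'
        · rw [if_neg h8] at hc'
          simp at hc'
    · dsimp only
      by_cases h7 : (i', c') = q
      · subst h7
        simpa using h2
      · rw [if_neg h7]
        split_ifs <;> trivial
    · dsimp only
      by_cases h7 : (i', c') = q
      · subst h7
        simpa using h1
      · rw [if_neg h7]
        split_ifs <;> trivial
    · dsimp only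
      by_cases h7 : (i', c') = q
      · subst h7
        simpa using bef_trans hrp _ _ _ h2
      · rw [if_neg h7]
        split_ifs <;> trivial
  · push Not at h6
    obtain ⟨i1, hi1⟩ := h6
    obtain ⟨y, hy1, hy2⟩ := hF i1 (ch z sb q i1) hi1
    refine ⟨some (i1, y), ⟨fun i' c' hc' => ?_, fun h => by simp at h,
      fun i' c' => ?_⟩, ⟨fun h => by simp at h, fun i' c' => ?_⟩⟩
    · exfalso
      dsimp only at hc'
      by_cases h7 : (i', c') = q
      · rw [if_pos h7] at hc'
        exact hs hc'
      · rw [if_neg h7] at hc'
        by_cases h8 : (i', c') = (i1, ch z sb q i1)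
        · rw [if_pos h8] at hc'
          exact hsel y hc'
        · rw [if_neg h8] at hc'
          simp at hc'
    · dsimp only
      by_cases h7 : (i', c') = q
      · subst h7
        simpa using h1
      · rw [if_neg h7]
        by_cases h8 : (i', c') = (i1, ch z sb q i1)
        · rw [if_pos h8]
          obtain ⟨h9, h10⟩ := Prod.mk.inj h8
          subst h9
          rw [h10]
          exact hy1
        · rw [if_neg h8]
          trivial
    · dsimp only
      by_cases h7 : (i', c') = q
      · subst h7
        simpa using bef_trans hrp _ _ _ h2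
      · rw [if_neg h7]
        by_cases h8 : (i', c') = (i1, ch z sb q i1)
        · rw [if_pos h8]
          obtain ⟨h9, h10⟩ := Prod.mk.inj h8
          subst h9
          rw [h10]
          exact bef_trans hrp _ _ _ hy2
        · rw [if_neg h8]
          trivial

end Pool.Agent.Helper6.IT
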