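import Pool.Agent.Helper6.IT.Weight
import Pool.Agent.Helper18.IT.Ranks
import Pool.Agent.Helper6.IC.Trans2

/-!
# Programs for tree evaluation which inspect few cells: branching block sets, the bound
-/

namespace Pool.Agent.Helper6.IT

open Pool.Agent.Helper5.TreeExp Pool.Agent.Helper18.IC Pool.Agent.Helper6.IC
open Pool.Agent.Helper18.IT (shape_bound)

variable {d k : ℕ}

theorem lines_triv : (n : ℕ) → (I : Var d k n → Fin k) → Lines k n I
  | 0, _ => trivial
  | n + 1, I => ⟨fun x c y => by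
      refine le_trans (Set.ncard_le_ncard (Set.subset_univ _) (Set.toFinite _)) ?_
      rw [Set.ncard_univ, Nat.card_fin], fun c => lines_triv n _⟩

theorem good_cases {n N T : ℕ} (z : Fin d) (sb : Fin d → Fin d) (hn : 2 ≤ n)
    (φ : Fin k → Fin k) (B : BP (Var d k n) k N)
    (I : Var d k n → Fin k) (h : GoodPhi2 T φ B I) (hk : 1 ≤ k) :
    Held (obs B I B.start) (Sum.inr (φ (valI n I))) (Sum.inl (rv n I)) ∨
    (∃ (x : NF d n) (a : Code T k (selF z sb x)), BCond (obs B I B.start) Sum.inl (selF z sb x) I ∧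
      CodeOK (obs B I B.start) T k Sum.inl (selF z sb x) I a) ∨
    ∃ (x : NB d n) (q : Fin N) (a : Code T k (selB z sb x)),
      BCond (obs B I q) Sum.inl (selB z sb x) I ∧
      CodeOK (obs B I q) T k Sum.inl (selB z sb x) I a := by
  have hl := lines_triv n I
  obtain ⟨⟨l, hl'⟩, hf⟩ := h
  set o := obs B I B.start with ho
  have hne : ∀ u : Var d k n, (Sum.inl u : Var d k n ⊕ Fin k) ≠ Sum.inr (φ (valI n I)) :=
    fun u => by simp
  by_cases h1 : Held o (Sum.inr (φ (valI n I))) (Sum.inl (rv n I))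
  · exact Or.inl h1
  · right
    by_cases h2 : Open2 o n Sum.inl I (Sum.inr (φ (valI n I)))
    · right
      -- a step at which the last open path is closed
      have h3 : ∃ j, j < l ∧ Open2 (fun i => o (i + j)) n Sum.inl I (Sum.inr (φ (valI n I))) ∧
          ¬ Open2 (fun i => o (i + (j + 1))) n Sum.inl I (Sum.inr (φ (valI n I))) := by
        by_contra hc
        push Not at hc
        have h4 : ∀ j, j ≤ l →
            Open2 (fun i => o (i + j)) n Sum.inl I (Sum.inr (φ (valI n I))) := by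
          intro j
          induction j with
          | zero => exact fun _ => h2
          | succ j ih => exact fun hj => hc j (by omega) (ih (by omega))
        have h6 : ¬ Held (fun i => o (i + l)) (Sum.inr (φ (valI n I))) (Sum.inl (rv n I)) :=
          open2_not_held (h4 l le_rfl)
        exact h6 (held_first (by simpa using hl') (by simp))
      obtain ⟨j, hjm, hj1, hj2⟩ := h3
      have e1 : (fun i => (fun i => o (i + j)) (i + 1)) = fun i => o (i + (j + 1)) := by
        funext i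
        change o (i + 1 + j) = o (i + (j + 1))
        rw [show i + 1 + j = i + (j + 1) by omega]
      obtain ⟨x, hx1, hx2⟩ := claimB z sb n hn Sum.inl Sum.inl_injective I
        (Sum.inr (φ (valI n I))) hne (o := fun i => o (i + j)) ⟨l - j - 1, by
          rw [show l - j - 1 + 1 + j = l by omega]
          exact hl'⟩ hj1 (by
          rw [e1]
          exact hj2)
      rw [e1] at hx1 hx2
      have hf' : Few2 (fun i => o (i + (j + 1))) T n Sum.inl :=
        few2_mono (fun i => ⟨_, rfl⟩) _ _ hf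
      obtain ⟨a, -, ha⟩ := code_exists (selB z sb x) Sum.inl Sum.inl_injective I hf' hl hx2 0 hk
      refine ⟨x, (B.step I)^[j + 1] B.start, a, ?_⟩
      rw [obs_shift]
      exact ⟨hx1, ha⟩
    · left
      obtain ⟨x, hx1, hx2⟩ := claimF z sb n Sum.inl Sum.inl_injective I (Sum.inr (φ (valI n I))) hne
        ⟨l, hl'⟩ h1 h2
      obtain ⟨a, -, ha⟩ := code_exists (selF z sb x) Sum.inl Sum.inl_injective I hf hl hx2 0 hk
      exact ⟨x, a, hx1, ha⟩

/-- The bound in terms of `x`. -/
theorem bound_x {n N T mp : ℕ} (hd : 2 ≤ d) (hk : 1 ≤ k) (hn : 2 ≤ n)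
    (φ : Fin k → Fin k) (hφ : ∀ x, Nat.card {y // φ y = x} ≤ mp) (B : BP (Var d k n) k N) {x : ℝ}
    (hx : x = 4 ^ d * Real.sqrt (T / (k : ℝ) ^ d)) (hx1 : 8 * (d : ℝ) ^ 2 * x ≤ 1) :
    (Nat.card {I : Var d k n → Fin k // GoodPhi2 T φ B I} : ℝ) ≤
      (mp / (k : ℝ) + 2 * x + Real.sqrt N * (3 * (d : ℝ) ^ 3 * x) ^ (n / 2)) *
      Nat.card (Var d k n → Fin k) := by
  classical
  set z : Fin d := ⟨0, by omega⟩ with hz
  set sb : Fin d → Fin d := fun c => if c.1 = 0 then ⟨1, by omega⟩ else z with hsbd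
  have hsb : ∀ c, sb c ≠ c := by
    intro c h
    rw [hsbd] at h
    dsimp only at h
    split_ifs at h with h1
    · rw [← h] at h1
      simp at h1
    · rw [← h] at h1
      exact h1 rfl
  have hx0 : 0 ≤ x := by
    rw [hx]
    positivity
  have hk0 : (0 : ℝ) < k := by exact_mod_cast hk
  set X : ℝ := ((Nat.card (Var d k n → Fin k) : ℕ) : ℝ) with hX
  have hX0 : 0 ≤ X := Nat.cast_nonneg _
  have hfinX : Finite (Var d k n → Fin k) := inferInstance
  let P : Unit ⊕ (NF d n ⊕ NB d n) → (Var d k n → Fin k) → Prop := fun w I => match w with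
    | Sum.inl _ => Held (obs B I B.start) (Sum.inr (φ (valI n I))) (Sum.inl (rv n I))
    | Sum.inr (Sum.inl y) => ∃ q ∈ ({B.start} : Finset (Fin N)), ∃ a : Code T k (selF z sb y),
        BCond (obs B I q) Sum.inl (selF z sb y) I ∧
        CodeOK (obs B I q) T k Sum.inl (selF z sb y) I a
    | Sum.inr (Sum.inr y) => ∃ q ∈ (Finset.univ : Finset (Fin N)), ∃ a : Code T k (selB z sb y),
        BCond (obs B I q) Sum.inl (selB z sb y) I ∧
        CodeOK (obs B I q) T k Sum.inl (selB z sb y) I a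
  have hcov := cover P (fun I => GoodPhi2 T φ B I) (fun I hI => by
    rcases good_cases z sb hn φ B I hI hk with h | ⟨x, i, h⟩ | ⟨x, q, i, h⟩
    · exact ⟨Sum.inl (), h⟩
    · exact ⟨Sum.inr (Sum.inl x), B.start, Finset.mem_singleton_self _, i, h⟩
    · exact ⟨Sum.inr (Sum.inr x), q, Finset.mem_univ _, i, h⟩)
  have hcov' : (Nat.card {I : Var d k n → Fin k // GoodPhi2 T φ B I} : ℝ) ≤
      ∑ w, (Nat.card {I // P w I} : ℝ) := by exact_mod_cast hcov
  rw [Fintype.sum_sum_type, Fintype.sum_sum_type] at hcov'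
  refine hcov'.trans ?_
  have hroot : (Nat.card {I // P (Sum.inl ()) I} : ℝ) ≤ mp / k * X := by
    rw [div_mul_eq_mul_div, le_div_iff₀ hk0, hX]
    have h1 : Nat.card {I // P (Sum.inl ()) I} * k ≤ mp * Nat.card (Var d k n → Fin k) :=
      root_bound_phi B B.start φ hφ
    exact_mod_cast h1
  have hF : ∀ y : NF d n, (Nat.card {I // P (Sum.inr (Sum.inl y)) I} : ℝ) ≤
      x ^ (selF z sb y).groups * X := by
    intro y
    have h1 := shape_bound (T := T) hk B {B.start} (selF z sb y) (selF_ne_self z sb y)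
      (selF_WF z sb y) (selF_size z sb hsb y)
    rw [Finset.card_singleton, Nat.cast_one, Real.sqrt_one, one_mul, ← hx] at h1
    exact h1
  have hB : ∀ y : NB d n, (Nat.card {I // P (Sum.inr (Sum.inr y)) I} : ℝ) ≤
      Real.sqrt N * x ^ (selB z sb y).groups * X := by
    intro y
    have h1 := shape_bound (T := T) hk B Finset.univ (selB z sb y) (selB_ne_self z sb y)
      (selB_WF z sb y) (selB_size z sb hsb y)
    rw [Finset.card_univ, Fintype.card_fin, ← hx] at h1
    exact h1
  have s1 : ∑ w : Unit, (Nat.card {I // P (Sum.inl w) I} : ℝ) ≤ mp / k * X := by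
    simpa using hroot
  have s2 : ∑ y : NF d n, (Nat.card {I // P (Sum.inr (Sum.inl y)) I} : ℝ) ≤ 2 * x * X := by
    refine (Finset.sum_le_sum fun y _ => hF y).trans ?_
    rw [← Finset.sum_mul]
    exact mul_le_mul_of_nonneg_right (wF_le (by omega) z sb hsb hx0 hx1 n).2 hX0
  have s3 : ∑ y : NB d n, (Nat.card {I // P (Sum.inr (Sum.inr y)) I} : ℝ) ≤
      Real.sqrt N * (3 * (d : ℝ) ^ 3 * x) ^ (n / 2) * X := by
    refine (Finset.sum_le_sum fun y _ => hB y).trans ?_
    rw [← Finset.sum_mul, ← Finset.mul_sum]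
    exact mul_le_mul_of_nonneg_right (mul_le_mul_of_nonneg_left
      (wB_le (by omega) z sb hsb hx0 hx1 n).2 (Real.sqrt_nonneg _)) hX0
  calc _ ≤ mp / k * X + (2 * x * X + Real.sqrt N * (3 * (d : ℝ) ^ 3 * x) ^ (n / 2) * X) :=
        add_le_add s1 (add_le_add s2 s3)
    _ = _ := by ring

/-- The bound for all parameters. -/
theorem bound_all {n N T mp : ℕ} (hd : 2 ≤ d) (hk : 1 ≤ k)
    (φ : Fin k → Fin k) (hφ : ∀ x, Nat.card {y // φ y = x} ≤ mp) (B : BP (Var d k n) k N) {y : ℝ}
    (hy : y = 4 ^ (d + 1) * (d : ℝ) ^ 3 * Real.sqrt (T / (k : ℝ) ^ d)) :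
    (Nat.card {I : Var d k n → Fin k // GoodPhi2 T φ B I} : ℝ) ≤
      (mp / (k : ℝ) + y + Real.sqrt N * y ^ (n / 2)) *
      Nat.card (Var d k n → Fin k) := by
  set x : ℝ := 4 ^ d * Real.sqrt (T / (k : ℝ) ^ d) with hx
  have hyx : y = 4 * (d : ℝ) ^ 3 * x := by
    rw [hy, hx]
    ring
  have hx0 : 0 ≤ x := by positivity
  have hd2 : (2 : ℝ) ≤ d := by exact_mod_cast hd
  have hy0 : 0 ≤ y := by
    rw [hyx]
    positivity
  set X : ℝ := ((Nat.card (Var d k n → Fin k) : ℕ) : ℝ) with hX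
  have hX0 : 0 ≤ X := Nat.cast_nonneg _
  have hp0 : (0 : ℝ) ≤ mp / k := by positivity
  have htriv : (Nat.card {I : Var d k n → Fin k // GoodPhi2 T φ B I} : ℝ) ≤ X := by
    rw [hX]
    exact_mod_cast Nat.card_le_card_of_injective
      (fun I : {I : Var d k n → Fin k // GoodPhi2 T φ B I} => I.1) Subtype.val_injective
  have hN : (1 : ℝ) ≤ Real.sqrt N := by
    rw [Real.one_le_sqrt]
    have : 0 < N := lt_of_le_of_lt (Nat.zero_le _) B.start.2
    exact_mod_cast this
  by_cases h1 : 1 ≤ y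
  · refine htriv.trans ?_
    have h2 : 0 ≤ Real.sqrt N * y ^ (n / 2) := by positivity
    nlinarith
  · push Not at h1
    rcases Nat.lt_or_ge n 2 with hn | hn
    · refine htriv.trans ?_
      have h2 : n / 2 = 0 := by omega
      rw [h2, pow_zero, mul_one]
      nlinarith
    · have h3 : (8 * (d : ℝ) ^ 2 * x) ≤ y := by
        rw [hyx]
        have h4 : (d : ℝ) ^ 3 = d ^ 2 * d := by ring
        have h5 : 0 ≤ (d : ℝ) ^ 2 * x := by positivity
        rw [h4]
        nlinarith
      have h4 := bound_x (T := T) hd hk hn φ hφ B hx (by linarith)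
      refine h4.trans (mul_le_mul_of_nonneg_right ?_ hX0)
      have h5 : 2 * x ≤ y := by
        have h6 : (2 : ℝ) ≤ 8 * (d : ℝ) ^ 2 := by nlinarith
        have h7 : 2 * x ≤ 8 * (d : ℝ) ^ 2 * x := mul_le_mul_of_nonneg_right h6 hx0
        linarith
      have h6 : (3 * (d : ℝ) ^ 3 * x) ^ (n / 2) ≤ y ^ (n / 2) := by
        refine pow_le_pow_left₀ (by positivity) ?_ _
        rw [hyx]
        have : 0 ≤ (d : ℝ) ^ 3 * x := by positivity
        linarith
      have h7 := mul_le_mul_of_nonneg_left h6 (Real.sqrt_nonneg N)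
      linarith

end Pool.Agent.Helper6.IT
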