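import Pool.Agent.Helper6.IT.Shapes

/-!
# Programs for tree evaluation which inspect few cells: branching block sets, weighted sums
-/

namespace Pool.Agent.Helper6.IT

open Pool.Agent.Helper5.TreeExp Pool.Agent.Helper18.IC Pool.Agent.Helper6.IC

variable {d k : ℕ}

noncomputable instance fintypeNF : (n : ℕ) → Fintype (NF d n)
  | 0 => inferInstanceAs (Fintype Empty)
  | 1 => inferInstanceAs (Fintype Empty)
  | n + 2 => by
    have := fintypeNF n
    exact inferInstanceAs (Fintype (Option (Fin d × NF d n × Option (Fin d × NF d n))))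

noncomputable instance fintypeNB : (n : ℕ) → Fintype (NB d n)
  | 0 => inferInstanceAs (Fintype Empty)
  | 1 => inferInstanceAs (Fintype Empty)
  | 2 => inferInstanceAs (Fintype Unit)
  | 3 => inferInstanceAs (Fintype Unit)
  | n + 4 => by
    have := fintypeNB (n + 2)
    exact inferInstanceAs (Fintype ((Fin d × Fin d) × NB d (n + 2) × Option (Fin d × NF d (n + 2))))

/-- A sum over options of pairs. -/
theorem sum_opt {X : Type} [Fintype X] (x : ℝ) (f : X → ℝ) :
    ∑ y : Option (Fin d × X), y.elim x (fun u => f u.2) = x + d * ∑ u, f u := by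
  rw [Fintype.sum_option]
  congr 1
  change ∑ u : Fin d × X, f u.2 = _
  rw [Fintype.sum_prod_type]
  simp

/-- The weighted sum of the shapes. -/
noncomputable def wF (z : Fin d) (sb : Fin d → Fin d) (x : ℝ) (n : ℕ) : ℝ :=
  ∑ y : NF d n, x ^ (selF z sb y).groups

/-- The weighted sum of the shapes. -/
noncomputable def wB (z : Fin d) (sb : Fin d → Fin d) (x : ℝ) (n : ℕ) : ℝ :=
  ∑ y : NB d n, x ^ (selB z sb y).groups

theorem elim_pow {n : ℕ} (z : Fin d) (sb : Fin d → Fin d) (x : ℝ) (o : Option (Fin d × NF d n)) :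
    x ^ ((o.map (fun u => (u.1, selF z sb u.2))).elim 1 (fun u => u.2.groups)) =
      o.elim x (fun u => x ^ (selF z sb u.2).groups) := by
  rcases o with _ | v <;> simp

theorem wF_succ (z : Fin d) (sb : Fin d → Fin d) (hsb : ∀ c, sb c ≠ c) (x : ℝ) (n : ℕ) :
    wF z sb x (n + 2) = x + d * wF z sb x n * (x + d * wF z sb x n) := by
  have h0 : wF z sb x (n + 2) =
      ∑ y : Option (Fin d × NF d n × Option (Fin d × NF d n)),
        x ^ (selF (n := n + 2) z sb y).groups := rfl
  rw [h0, Fintype.sum_option]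
  have h1 : x ^ (selF (n := n + 2) z sb none).groups = x := by
    change x ^ (lastSel z).groups = x
    rw [lastSel, base_groups, pow_one]
  have h2 : ∀ y : Fin d × NF d n × Option (Fin d × NF d n),
      x ^ (selF (n := n + 2) z sb (some y)).groups =
      x ^ (selF z sb y.2.1).groups * y.2.2.elim x (fun u => x ^ (selF z sb u.2).groups) := by
    intro y
    change x ^ (stepSel z sb _ _ _).groups = _
    rw [stepSel_groups z sb hsb, pow_add, elim_pow]
  rw [h1]
  congr 1
  simp only [h2]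
  rw [Fintype.sum_prod_type]
  simp only [Finset.sum_const, Finset.card_univ, Fintype.card_fin, nsmul_eq_mul]
  rw [Fintype.sum_prod_type]
  simp only
  have h3 : ∀ a : NF d n, ∑ o : Option (Fin d × NF d n),
      x ^ (selF z sb a).groups * o.elim x (fun u => x ^ (selF z sb u.2).groups) =
      x ^ (selF z sb a).groups * (x + d * wF z sb x n) := by
    intro a
    rw [← Finset.mul_sum]
    congr 1
    exact sum_opt x (fun u => x ^ (selF z sb u).groups)
  simp only [h3]
  rw [← Finset.sum_mul, mul_assoc]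
  rfl

theorem wB_succ (z : Fin d) (sb : Fin d → Fin d) (hsb : ∀ c, sb c ≠ c) (x : ℝ) (n : ℕ) :
    wB z sb x (n + 4) = (d * d) * wB z sb x (n + 2) * (x + d * wF z sb x (n + 2)) := by
  have h0 : wB z sb x (n + 4) =
      ∑ y : (Fin d × Fin d) × NB d (n + 2) × Option (Fin d × NF d (n + 2)),
        x ^ (selB (n := n + 4) z sb y).groups := rfl
  have h2 : ∀ y : (Fin d × Fin d) × NB d (n + 2) × Option (Fin d × NF d (n + 2)),
      x ^ (selB (n := n + 4) z sb y).groups =
      x ^ (selB z sb y.2.1).groups * y.2.2.elim x (fun u => x ^ (selF z sb u.2).groups) := by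
    intro y
    change x ^ (stepSel z sb _ _ _).groups = _
    rw [stepSel_groups z sb hsb, pow_add, elim_pow]
  rw [h0]
  simp only [h2]
  rw [Fintype.sum_prod_type]
  simp only [Finset.sum_const, Finset.card_univ, Fintype.card_prod, Fintype.card_fin, nsmul_eq_mul]
  rw [Fintype.sum_prod_type]
  simp only
  have h3 : ∀ a : NB d (n + 2), ∑ o : Option (Fin d × NF d (n + 2)),
      x ^ (selB z sb a).groups * o.elim x (fun u => x ^ (selF z sb u.2).groups) =
      x ^ (selB z sb a).groups * (x + d * wF z sb x (n + 2)) := by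
    intro a
    rw [← Finset.mul_sum]
    congr 1
    exact sum_opt x (fun u => x ^ (selF z sb u).groups)
  simp only [h3]
  rw [← Finset.sum_mul, mul_assoc]
  push_cast
  rfl

theorem wF_le (hd : 1 ≤ d) (z : Fin d) (sb : Fin d → Fin d) (hsb : ∀ c, sb c ≠ c) {x : ℝ}
    (hx : 0 ≤ x) (hx1 : 8 * (d : ℝ) ^ 2 * x ≤ 1) : (n : ℕ) → 0 ≤ wF z sb x n ∧ wF z sb x n ≤ 2 * x
  | 0 => by
    have : wF z sb x 0 = 0 := Fintype.sum_empty (ι := Empty) _
    rw [this]
    exact ⟨le_rfl, by linarith⟩
  | 1 => by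
    have : wF z sb x 1 = 0 := Fintype.sum_empty (ι := Empty) _
    rw [this]
    exact ⟨le_rfl, by linarith⟩
  | n + 2 => by
    obtain ⟨h1, h2⟩ := wF_le hd z sb hsb hx hx1 n
    have hd1 : (1 : ℝ) ≤ d := by exact_mod_cast hd
    rw [wF_succ z sb hsb]
    refine ⟨by positivity, ?_⟩
    have h3 : (d : ℝ) * wF z sb x n ≤ d * (2 * x) := mul_le_mul_of_nonneg_left h2 (by positivity)
    have h4 : (d : ℝ) * wF z sb x n * (x + d * wF z sb x n) ≤ (d * (2 * x)) * (x + d * (2 * x)) :=
      mul_le_mul h3 (by linarith) (by positivity) (by positivity)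
    have h5 : x + (d : ℝ) * (2 * x) ≤ 3 * d * x := by nlinarith
    have h6 : ((d : ℝ) * (2 * x)) * (x + d * (2 * x)) ≤ (d * (2 * x)) * (3 * d * x) :=
      mul_le_mul_of_nonneg_left h5 (by positivity)
    have h7 : ((d : ℝ) * (2 * x)) * (3 * d * x) = x * (6 * d ^ 2 * x) := by ring
    have h8 : x * (6 * (d : ℝ) ^ 2 * x) ≤ x * 1 :=
      mul_le_mul_of_nonneg_left (by nlinarith [mul_nonneg (sq_nonneg (d : ℝ)) hx]) hx
    linarith

theorem wB_le (hd : 1 ≤ d) (z : Fin d) (sb : Fin d → Fin d) (hsb : ∀ c, sb c ≠ c) {x : ℝ}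
    (hx : 0 ≤ x) (hx1 : 8 * (d : ℝ) ^ 2 * x ≤ 1) :
    (n : ℕ) → 0 ≤ wB z sb x n ∧ wB z sb x n ≤ (3 * (d : ℝ) ^ 3 * x) ^ (n / 2)
  | 0 => by
    have : wB z sb x 0 = 0 := Fintype.sum_empty (ι := Empty) _
    rw [this]
    exact ⟨le_rfl, by positivity⟩
  | 1 => by
    have : wB z sb x 1 = 0 := Fintype.sum_empty (ι := Empty) _
    rw [this]
    exact ⟨le_rfl, by positivity⟩
  | 2 => by
    have hd1 : (1 : ℝ) ≤ d := by exact_mod_cast hd
    have h : wB z sb x 2 = x := by
      have h0 : wB z sb x 2 = ∑ y : Unit, x ^ (selB (n := 2) z sb y).groups := rfl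
      rw [h0]
      simp only [Finset.univ_unique, Finset.sum_singleton]
      change x ^ (lastSel z).groups = x
      rw [lastSel, base_groups, pow_one]
    rw [h]
    refine ⟨hx, ?_⟩
    have h1 : (1 : ℝ) ≤ (d : ℝ) ^ 3 := one_le_pow₀ hd1
    rw [show 2 / 2 = 1 from rfl, pow_one]
    nlinarith
  | 3 => by
    have hd1 : (1 : ℝ) ≤ d := by exact_mod_cast hd
    have h : wB z sb x 3 = x := by
      have h0 : wB z sb x 3 = ∑ y : Unit, x ^ (selB (n := 3) z sb y).groups := rfl
      rw [h0]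
      simp only [Finset.univ_unique, Finset.sum_singleton]
      change x ^ (lastSel z).groups = x
      rw [lastSel, base_groups, pow_one]
    rw [h]
    refine ⟨hx, ?_⟩
    have h1 : (1 : ℝ) ≤ (d : ℝ) ^ 3 := one_le_pow₀ hd1
    rw [show 3 / 2 = 1 from rfl, pow_one]
    nlinarith
  | n + 4 => by
    obtain ⟨h1, h2⟩ := wB_le hd z sb hsb hx hx1 (n + 2)
    obtain ⟨h3, h4⟩ := wF_le hd z sb hsb hx hx1 (n + 2)
    have hd1 : (1 : ℝ) ≤ d := by exact_mod_cast hd
    rw [wB_succ z sb hsb]
    refine ⟨by positivity, ?_⟩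
    have h5 : x + (d : ℝ) * wF z sb x (n + 2) ≤ 3 * d * x := by nlinarith
    have h6 : (n + 4) / 2 = (n + 2) / 2 + 1 := by omega
    calc (d * d : ℝ) * wB z sb x (n + 2) * (x + d * wF z sb x (n + 2)) ≤
        (d * d : ℝ) * (3 * (d : ℝ) ^ 3 * x) ^ ((n + 2) / 2) * (3 * d * x) :=
          mul_le_mul (mul_le_mul_of_nonneg_left h2 (by positivity)) h5 (by positivity)
            (by positivity)
      _ = (3 * (d : ℝ) ^ 3 * x) ^ ((n + 4) / 2) := by
        rw [h6]
        ring

end Pool.Agent.Helper6.IT
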